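import Pool.Agent.X83.BF.Layer

open MeasureTheory Matrix
open scoped Kronecker BigOperators ComplexConjugate

namespace Pool.Agent.X83.BF

variable {K : ℕ}

theorem continuous_gate (s t : Fin 2) :
    Continuous fun y : ℝ × ℝ => gate y.1 y.2 s t := by
  rcases fin2 s with hs | hs <;> rcases fin2 t with ht | ht <;> rw [hs, ht]
  · simp only [gate_00]; fun_prop
  · simp only [gate_01]; fun_prop
  · simp only [gate_10]; fun_prop
  · simp only [gate_11]; fun_prop

theorem continuous_layer (ℓ : Fin K) : Continuous fun x : Mode K → ℝ × ℝ => layer ℓ x := by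
  refine continuous_matrix fun a b => ?_
  simp only [layer, Matrix.of_apply]
  by_cases h : base ℓ a = base ℓ b
  · simp only [h, if_true]
    exact (continuous_gate (a ℓ) (b ℓ)).comp (continuous_apply (base ℓ b))
  · simp only [h, if_false]
    exact continuous_const

theorem continuous_out (ℓ : Fin K) :
    Continuous fun z : (Mode K → ℝ × ℝ) × (Mode K → ℂ) => (layer ℓ z.1)ᴴ *ᵥ z.2 := by
  have h := (continuous_layer ℓ).comp (continuous_fst (X := Mode K → ℝ × ℝ) (Y := Mode K → ℂ))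
  exact Continuous.matrix_mulVec h.matrix_conjTranspose continuous_snd

theorem two_eval {𝕜 : Type*} [RCLike 𝕜] {b b' : Mode K} (h : b ≠ b') (φ ψ : ℝ × ℝ → 𝕜) :
    ∫ x, φ (x b) * ψ (x b') ∂(lay K)
      = (∫ y, φ y ∂(unif.prod unif)) * ∫ y, ψ y ∂(unif.prod unif) := by
  classical
  set f : Mode K → ℝ × ℝ → 𝕜 := fun i => if i = b then φ else if i = b' then ψ else fun _ => 1
    with hf
  have h1 := integral_fintype_prod_eq_prod (ι := Mode K) (E := fun _ => ℝ × ℝ) f
    (μ := fun _ => unif.prod unif)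
  have hb : f b = φ := by simp [hf]
  have hb' : f b' = ψ := by simp [hf, h.symm]
  have ho : ∀ c, c ≠ b ∧ c ≠ b' → f c = fun _ => 1 := by
    intro c hc; simp [hf, hc.1, hc.2]
  have h2 : ∀ x : Mode K → ℝ × ℝ, ∏ i, f i (x i) = φ (x b) * ψ (x b') := by
    intro x
    rw [Finset.prod_eq_mul b b' h, hb, hb']
    · intro c _ hc; rw [ho c hc]
    · intro hn; exact absurd (Finset.mem_univ _) hn
    · intro hn; exact absurd (Finset.mem_univ _) hn
  have h3 : ∏ i, ∫ x, f i x ∂(unif.prod unif)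
      = (∫ y, φ y ∂(unif.prod unif)) * ∫ y, ψ y ∂(unif.prod unif) := by
    rw [Finset.prod_eq_mul b b' h, hb, hb']
    · intro c _ hc; rw [ho c hc]; simp
    · intro hn; exact absurd (Finset.mem_univ _) hn
    · intro hn; exact absurd (Finset.mem_univ _) hn
  rw [← h3, ← h1]
  unfold lay
  simp_rw [h2]

theorem one_eval {E : Type*} [NormedAddCommGroup E] [NormedSpace ℝ E] (b : Mode K)
    (φ : ℝ × ℝ → E) (hφ : AEStronglyMeasurable φ (unif.prod unif)) :
    ∫ x, φ (x b) ∂(lay K) = ∫ y, φ y ∂(unif.prod unif) :=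
  integral_comp_eval (μ := fun _ : Mode K => unif.prod unif) hφ

theorem fst_eval (φ : ℝ → ℝ) : ∫ y, φ y.1 ∂(unif.prod unif) = ∫ θ, φ θ ∂unif := by
  have := integral_prod_mul (μ := unif) (ν := unif) φ (fun _ => (1 : ℝ))
  simpa using this

theorem int_XX (ℓ : Fin K) (v : Mode K → ℂ) (a : Mode K) : ∫ θ, XX ℓ v a θ ∂unif = 0 := by
  unfold XX
  rw [integral_sub, integral_mul_const, integral_mul_const, unif_cos, unif_sin]
  · ring
  · exact carried_unif.integrable (by fun_prop)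
  · exact carried_unif.integrable (by fun_prop)

theorem int_XX_sq (ℓ : Fin K) (v : Mode K → ℂ) (a : Mode K) :
    ∫ θ, XX ℓ v a θ ^ 2 ∂unif = (DD ℓ v a ^ 2 + RR ℓ v a ^ 2) / 2 := by
  have h : ∀ θ, XX ℓ v a θ ^ 2 = (DD ℓ v a ^ 2 + RR ℓ v a ^ 2) / 2
      + Real.cos (4 * θ) * ((DD ℓ v a ^ 2 - RR ℓ v a ^ 2) / 2)
      - Real.sin (4 * θ) * (DD ℓ v a * RR ℓ v a) := by
    intro θ
    unfold XX
    have h1 : Real.cos (4 * θ) = 2 * Real.cos (2 * θ) ^ 2 - 1 := by
      rw [show 4 * θ = 2 * (2 * θ) by ring, Real.cos_two_mul]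
    have h2 : Real.sin (4 * θ) = 2 * Real.sin (2 * θ) * Real.cos (2 * θ) := by
      rw [show 4 * θ = 2 * (2 * θ) by ring, Real.sin_two_mul]
    have h3 := Real.cos_sq_add_sin_sq (2 * θ)
    rw [h1, h2]
    linear_combination RR ℓ v a ^ 2 * h3
  simp_rw [h]
  rw [integral_sub, integral_add, integral_mul_const, integral_mul_const, unif_cos4, unif_sin4]
  · simp
  · exact integrable_const _
  · exact carried_unif.integrable (by fun_prop)
  · exact carried_unif.integrable (by fun_prop)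
  · exact carried_unif.integrable (by fun_prop)

theorem XX_congr (ℓ : Fin K) (v : Mode K → ℂ) {a b : Mode K} (h : base ℓ a = base ℓ b) :
    DD ℓ v a = DD ℓ v b ∧ RR ℓ v a = RR ℓ v b ∧ XX ℓ v a = XX ℓ v b ∧ TT ℓ v a = TT ℓ v b := by
  have h2 := base_congr h
  have h3 : DD ℓ v a = DD ℓ v b := by unfold DD; rw [h, h2]
  have h4 : RR ℓ v a = RR ℓ v b := by unfold RR; rw [h, h2]
  refine ⟨h3, h4, ?_, ?_⟩
  · funext θ; unfold XX; rw [h3, h4]
  · unfold TT; rw [h, h2]

theorem continuous_XX (ℓ : Fin K) (v : Mode K → ℂ) (a : Mode K) : Continuous (XX ℓ v a) := by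
  unfold XX; fun_prop

/-- Mean of the product of two fluctuations. -/
theorem int_XX_XX (ℓ : Fin K) (v : Mode K → ℂ) (a b : Mode K) :
    ∫ x, XX ℓ v a (x (base ℓ a)).1 * XX ℓ v b (x (base ℓ b)).1 ∂(lay K)
      = if base ℓ a = base ℓ b then (DD ℓ v a ^ 2 + RR ℓ v a ^ 2) / 2 else 0 := by
  split_ifs with h
  · obtain ⟨_, _, h3, _⟩ := XX_congr ℓ v h
    rw [← h, ← h3]
    have := one_eval (base ℓ a) (fun y : ℝ × ℝ => XX ℓ v a y.1 * XX ℓ v a y.1)
      (by
        have := continuous_XX ℓ v a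
        exact Continuous.aestronglyMeasurable (by fun_prop))
    rw [this, fst_eval (fun θ => XX ℓ v a θ * XX ℓ v a θ)]
    simp_rw [← pow_two]
    exact int_XX_sq ℓ v a
  · rw [two_eval h (fun y => XX ℓ v a y.1) (fun y => XX ℓ v b y.1), fst_eval (XX ℓ v a),
      int_XX, zero_mul]

theorem int_XX_one (ℓ : Fin K) (v : Mode K → ℂ) (a : Mode K) :
    ∫ x, XX ℓ v a (x (base ℓ a)).1 ∂(lay K) = 0 := by
  rw [one_eval (base ℓ a) (fun y : ℝ × ℝ => XX ℓ v a y.1)
    (by
      have := continuous_XX ℓ v a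
      exact Continuous.aestronglyMeasurable (by fun_prop)), fst_eval (XX ℓ v a), int_XX]

theorem cont_XX_comp (ℓ : Fin K) (v : Mode K → ℂ) (a : Mode K) :
    Continuous fun x : Mode K → ℝ × ℝ => XX ℓ v a (x (base ℓ a)).1 :=
  (continuous_XX ℓ v a).comp (continuous_fst.comp (continuous_apply (base ℓ a)))

theorem int_PP_PP (ℓ : Fin K) (v : Mode K → ℂ) (a b : Mode K) :
    ∫ x, PP ((layer ℓ x)ᴴ *ᵥ v) a * PP ((layer ℓ x)ᴴ *ᵥ v) b ∂(lay K)
      = TT ℓ v a * TT ℓ v b + sg (a ℓ) * sg (b ℓ) *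
        (if base ℓ a = base ℓ b then (DD ℓ v a ^ 2 + RR ℓ v a ^ 2) / 2 else 0) := by
  have h : ∀ x : Mode K → ℝ × ℝ, PP ((layer ℓ x)ᴴ *ᵥ v) a * PP ((layer ℓ x)ᴴ *ᵥ v) b
      = TT ℓ v a * TT ℓ v b + TT ℓ v a * sg (b ℓ) * XX ℓ v b (x (base ℓ b)).1
        + sg (a ℓ) * TT ℓ v b * XX ℓ v a (x (base ℓ a)).1
        + sg (a ℓ) * sg (b ℓ) * (XX ℓ v a (x (base ℓ a)).1 * XX ℓ v b (x (base ℓ b)).1) := by
    intro x
    rw [PP_layer, PP_layer]
    ring
  simp_rw [h]
  have c1 := cont_XX_comp ℓ v a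
  have c2 := cont_XX_comp ℓ v b
  have i0 : Integrable (fun x : Mode K → ℝ × ℝ => TT ℓ v a * TT ℓ v b) (lay K) :=
    integrable_const _
  have i1 : Integrable (fun x : Mode K → ℝ × ℝ =>
      TT ℓ v a * sg (b ℓ) * XX ℓ v b (x (base ℓ b)).1) (lay K) :=
    (carried_lay K).integrable (continuous_const.mul c2)
  have i2 : Integrable (fun x : Mode K → ℝ × ℝ =>
      sg (a ℓ) * TT ℓ v b * XX ℓ v a (x (base ℓ a)).1) (lay K) :=
    (carried_lay K).integrable (continuous_const.mul c1)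
  have i3 : Integrable (fun x : Mode K → ℝ × ℝ =>
      sg (a ℓ) * sg (b ℓ) * (XX ℓ v a (x (base ℓ a)).1 * XX ℓ v b (x (base ℓ b)).1)) (lay K) :=
    (carried_lay K).integrable (continuous_const.mul (c1.mul c2))
  have j0 : ∫ x : Mode K → ℝ × ℝ, TT ℓ v a * TT ℓ v b ∂(lay K) = TT ℓ v a * TT ℓ v b := by
    rw [integral_const]; simp
  have j1 : ∫ x : Mode K → ℝ × ℝ, TT ℓ v a * sg (b ℓ) * XX ℓ v b (x (base ℓ b)).1 ∂(lay K)
      = 0 := by
    rw [integral_const_mul, int_XX_one, mul_zero]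
  have j2 : ∫ x : Mode K → ℝ × ℝ, sg (a ℓ) * TT ℓ v b * XX ℓ v a (x (base ℓ a)).1 ∂(lay K)
      = 0 := by
    rw [integral_const_mul, int_XX_one, mul_zero]
  have j3 : ∫ x : Mode K → ℝ × ℝ, sg (a ℓ) * sg (b ℓ) *
      (XX ℓ v a (x (base ℓ a)).1 * XX ℓ v b (x (base ℓ b)).1) ∂(lay K)
      = sg (a ℓ) * sg (b ℓ) *
        (if base ℓ a = base ℓ b then (DD ℓ v a ^ 2 + RR ℓ v a ^ 2) / 2 else 0) := by
    rw [integral_const_mul, int_XX_XX]
  rw [integral_add (by exact (i0.add i1).add i2) i3, integral_add (by exact i0.add i1) i2,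
    integral_add i0 i1, j0, j1, j2, j3, add_zero, add_zero]

/-- The quadratic forms. -/
noncomputable def QQ (A : Finset (Fin K)) (v : Mode K → ℂ) : ℝ :=
  ∑ a, ∑ b, if (∀ i ∈ A, a i = b i) then PP v a * PP v b else 0

/-- The interference term of the digit `ℓ`. -/
noncomputable def HH (ℓ : Fin K) (v : Mode K → ℂ) : ℝ :=
  ∑ a, (v a ^ 2 * conj (v (flip ℓ a)) ^ 2).re

/-- The flip as a permutation. -/
def flipE (ℓ : Fin K) : Equiv.Perm (Mode K) where
  toFun := flip ℓ
  invFun := flip ℓ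
  left_inv := flip_flip ℓ
  right_inv := flip_flip ℓ

theorem sum_flip {E : Type*} [AddCommMonoid E] (ℓ : Fin K) (g : Mode K → E) :
    ∑ a, g (flip ℓ a) = ∑ a, g a := Equiv.sum_comp (flipE ℓ) g

theorem TT_eq (ℓ : Fin K) (v : Mode K → ℂ) (a : Mode K) :
    TT ℓ v a = (PP v a + PP v (flip ℓ a)) / 2 := by
  unfold TT
  rcases fin2 (a ℓ) with h | h
  · have h1 : flip ℓ a = top ℓ a := by unfold flip top; rw [h]; rfl
    rw [base_eq h, h1]
  · have h1 : flip ℓ a = base ℓ a := by unfold flip base; rw [h]; rfl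
    rw [top_eq h, h1]; ring

theorem EE_eq (ℓ : Fin K) (v : Mode K → ℂ) (a : Mode K) :
    (DD ℓ v a ^ 2 + RR ℓ v a ^ 2) / 2 =
      (PP v a ^ 2 + PP v (flip ℓ a) ^ 2 + 2 * (v a ^ 2 * conj (v (flip ℓ a)) ^ 2).re) / 8 := by
  unfold DD RR PP
  rcases fin2 (a ℓ) with h | h
  · have h1 : flip ℓ a = top ℓ a := by unfold flip top; rw [h]; rfl
    rw [base_eq h, h1]
    simp only [Complex.normSq_apply, Complex.mul_re, Complex.mul_im, Complex.conj_re,
      Complex.conj_im, pow_two]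
    ring
  · have h1 : flip ℓ a = base ℓ a := by unfold flip base; rw [h]; rfl
    rw [top_eq h, h1]
    simp only [Complex.normSq_apply, Complex.mul_re, Complex.mul_im, Complex.conj_re,
      Complex.conj_im, pow_two]
    ring

theorem QQ_univ (v : Mode K → ℂ) : QQ Finset.univ v = ∑ a, PP v a ^ 2 := by
  unfold QQ
  apply Finset.sum_congr rfl
  intro a _
  rw [Finset.sum_eq_single a]
  · simp [pow_two]
  · intro b _ hb
    rw [if_neg]
    intro h
    exact hb (funext fun i => (h i (Finset.mem_univ _)).symm)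
  · intro h; exact absurd (Finset.mem_univ _) h

theorem sum_EE (ℓ : Fin K) (v : Mode K → ℂ) :
    ∑ a, (DD ℓ v a ^ 2 + RR ℓ v a ^ 2) / 2 = 1 / 4 * QQ Finset.univ v + 1 / 4 * HH ℓ v := by
  simp_rw [EE_eq]
  rw [QQ_univ, HH, ← Finset.sum_div, Finset.sum_add_distrib, Finset.sum_add_distrib,
    sum_flip ℓ (fun a => PP v a ^ 2), ← Finset.mul_sum]
  ring

theorem sg_sq (s : Fin 2) : sg s * sg s = 1 := by
  unfold sg; split_ifs <;> norm_num

theorem sum_diag (ℓ : Fin K) (A : Finset (Fin K)) (hA : ℓ ∈ A) (v : Mode K → ℂ) :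
    ∑ a, ∑ b, (if (∀ i ∈ A, a i = b i) then sg (a ℓ) * sg (b ℓ) *
        (if base ℓ a = base ℓ b then (DD ℓ v a ^ 2 + RR ℓ v a ^ 2) / 2 else 0) else 0)
      = ∑ a, (DD ℓ v a ^ 2 + RR ℓ v a ^ 2) / 2 := by
  apply Finset.sum_congr rfl
  intro a _
  rw [Finset.sum_eq_single a]
  · simp [sg_sq]
  · intro b _ hb
    by_cases h : ∀ i ∈ A, a i = b i
    · rw [if_pos h, if_neg, mul_zero]
      intro h2
      exact hb (eq_of_base h2 (h ℓ hA)).symm
    · rw [if_neg h]
  · intro h; exact absurd (Finset.mem_univ _) h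

theorem fin2_ne {s t : Fin 2} : s ≠ t ↔ s = 1 - t := by
  revert s t; decide

theorem agree_flip_flip (ℓ : Fin K) (A : Finset (Fin K)) (a b : Mode K) :
    (∀ i ∈ A, flip ℓ a i = flip ℓ b i) ↔ ∀ i ∈ A, a i = b i := by
  refine forall₂_congr fun i _ => ?_
  by_cases hi : i = ℓ
  · rw [hi, flip_apply_same, flip_apply_same]
    constructor
    · intro h; simpa using h
    · intro h; rw [h]
  · rw [flip_apply_ne hi, flip_apply_ne hi]

theorem agree_flip (ℓ : Fin K) (A : Finset (Fin K)) (hA : ℓ ∈ A) (a b : Mode K) (z : ℝ) :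
    (if (∀ i ∈ A, a i = b i) then z else 0) + (if (∀ i ∈ A, a i = flip ℓ b i) then z else 0)
      = if (∀ i ∈ A.erase ℓ, a i = b i) then z else 0 := by
  by_cases h : ∀ i ∈ A.erase ℓ, a i = b i
  · rw [if_pos h]
    by_cases h2 : a ℓ = b ℓ
    · have h3 : ∀ i ∈ A, a i = b i := by
        intro i hi
        by_cases hl : i = ℓ
        · rw [hl, h2]
        · exact h i (Finset.mem_erase.2 ⟨hl, hi⟩)
      rw [if_pos h3, if_neg, add_zero]
      intro h4
      have := h4 ℓ hA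
      rw [flip_apply_same] at this
      exact fin2_ne.2 this h2
    · have h3 : ∀ i ∈ A, a i = flip ℓ b i := by
        intro i hi
        by_cases hl : i = ℓ
        · rw [hl, flip_apply_same, ← fin2_ne]; exact h2
        · rw [flip_apply_ne hl]; exact h i (Finset.mem_erase.2 ⟨hl, hi⟩)
      rw [if_pos h3, if_neg (fun h4 => h2 (h4 ℓ hA)), zero_add]
  · rw [if_neg h, if_neg, if_neg, add_zero]
    · intro h2
      apply h
      intro i hi
      have := h2 i (Finset.mem_of_mem_erase hi)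
      rwa [flip_apply_ne (Finset.ne_of_mem_erase hi)] at this
    · intro h2
      exact h fun i hi => h2 i (Finset.mem_of_mem_erase hi)

theorem sum_TT (ℓ : Fin K) (A : Finset (Fin K)) (hA : ℓ ∈ A) (v : Mode K → ℂ) :
    ∑ a, ∑ b, (if (∀ i ∈ A, a i = b i) then TT ℓ v a * TT ℓ v b else 0)
      = 1 / 2 * QQ (A.erase ℓ) v := by
  have e0 : ∀ a b : Mode K, (if (∀ i ∈ A, a i = b i) then TT ℓ v a * TT ℓ v b else 0)
      = 1 / 4 * (if (∀ i ∈ A, a i = b i) then PP v a * PP v b else 0)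
      + 1 / 4 * (if (∀ i ∈ A, a i = b i) then PP v a * PP v (flip ℓ b) else 0)
      + 1 / 4 * (if (∀ i ∈ A, a i = b i) then PP v (flip ℓ a) * PP v b else 0)
      + 1 / 4 * (if (∀ i ∈ A, a i = b i) then PP v (flip ℓ a) * PP v (flip ℓ b) else 0) := by
    intro a b
    rw [TT_eq, TT_eq]
    split_ifs <;> ring
  have e1 : ∑ a, ∑ b, (if (∀ i ∈ A, a i = b i) then PP v (flip ℓ a) * PP v (flip ℓ b) else 0)
      = ∑ a, ∑ b, (if (∀ i ∈ A, a i = b i) then PP v a * PP v b else 0) := by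
    rw [← sum_flip ℓ (fun a => ∑ b, if (∀ i ∈ A, a i = b i) then PP v a * PP v b else 0)]
    apply Finset.sum_congr rfl
    intro a _
    rw [← sum_flip ℓ (fun b => if (∀ i ∈ A, flip ℓ a i = b i) then PP v (flip ℓ a) * PP v b
      else 0)]
    apply Finset.sum_congr rfl
    intro b _
    simp only [agree_flip_flip]
  have e2 : ∑ a, ∑ b, (if (∀ i ∈ A, a i = b i) then PP v a * PP v (flip ℓ b) else 0)
      = ∑ a, ∑ b, (if (∀ i ∈ A, a i = flip ℓ b i) then PP v a * PP v b else 0) := by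
    apply Finset.sum_congr rfl
    intro a _
    rw [← sum_flip ℓ (fun b => if (∀ i ∈ A, a i = b i) then PP v a * PP v (flip ℓ b) else 0)]
    simp only [flip_flip]
  have e3 : ∑ a, ∑ b, (if (∀ i ∈ A, a i = b i) then PP v (flip ℓ a) * PP v b else 0)
      = ∑ a, ∑ b, (if (∀ i ∈ A, a i = flip ℓ b i) then PP v a * PP v b else 0) := by
    rw [← sum_flip ℓ (fun a => ∑ b, if (∀ i ∈ A, a i = b i) then PP v (flip ℓ a) * PP v b
      else 0)]
    apply Finset.sum_congr rfl
    intro a _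
    apply Finset.sum_congr rfl
    intro b _
    rw [flip_flip]
    have : (∀ i ∈ A, flip ℓ a i = b i) ↔ ∀ i ∈ A, a i = flip ℓ b i := by
      rw [← agree_flip_flip ℓ A, flip_flip]
    simp only [this]
  simp_rw [e0]
  simp only [Finset.sum_add_distrib, ← Finset.mul_sum]
  rw [e1, e2, e3, QQ]
  have e4 : ∑ a, ∑ b, (if (∀ i ∈ A.erase ℓ, a i = b i) then PP v a * PP v b else 0)
      = ∑ a, ∑ b, (if (∀ i ∈ A, a i = b i) then PP v a * PP v b else 0)
      + ∑ a, ∑ b, (if (∀ i ∈ A, a i = flip ℓ b i) then PP v a * PP v b else 0) := by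
    rw [← Finset.sum_add_distrib]
    apply Finset.sum_congr rfl
    intro a _
    rw [← Finset.sum_add_distrib]
    apply Finset.sum_congr rfl
    intro b _
    exact (agree_flip ℓ A hA a b _).symm
  rw [e4]
  ring

theorem continuous_PP (a : Mode K) : Continuous fun v : Mode K → ℂ => PP v a := by
  unfold PP
  exact Complex.continuous_normSq.comp (continuous_apply a)

theorem continuous_QQ (A : Finset (Fin K)) : Continuous (QQ A) := by
  unfold QQ
  refine continuous_finsetSum _ fun a _ => continuous_finsetSum _ fun b _ => ?_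
  split_ifs
  · exact (continuous_PP a).mul (continuous_PP b)
  · exact continuous_const

theorem continuous_HH (ℓ : Fin K) : Continuous (HH ℓ) := by
  unfold HH
  refine continuous_finsetSum _ fun a _ => ?_
  have h1 : Continuous fun v : Mode K → ℂ => v a := continuous_apply a
  have h2 : Continuous fun v : Mode K → ℂ => conj (v (flip ℓ a)) :=
    Complex.continuous_conj.comp (continuous_apply _)
  exact Complex.continuous_re.comp ((h1.pow 2).mul (h2.pow 2))

theorem cont_layer_v (ℓ : Fin K) (v : Mode K → ℂ) :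
    Continuous fun x : Mode K → ℝ × ℝ => (layer ℓ x)ᴴ *ᵥ v :=
  (continuous_layer ℓ).matrix_conjTranspose.matrix_mulVec continuous_const

/-- One layer on the forms. -/
theorem avg_QQ (ℓ : Fin K) (A : Finset (Fin K)) (hA : ℓ ∈ A) (v : Mode K → ℂ) :
    ∫ x, QQ A ((layer ℓ x)ᴴ *ᵥ v) ∂(lay K)
      = 1 / 2 * QQ (A.erase ℓ) v + 1 / 4 * QQ Finset.univ v + 1 / 4 * HH ℓ v := by
  have hint : ∀ a b : Mode K, Integrable (fun x : Mode K → ℝ × ℝ =>
      if (∀ i ∈ A, a i = b i) then PP ((layer ℓ x)ᴴ *ᵥ v) a * PP ((layer ℓ x)ᴴ *ᵥ v) b else 0)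
      (lay K) := by
    intro a b
    apply (carried_lay K).integrable
    split_ifs
    · exact ((continuous_PP a).comp (cont_layer_v ℓ v)).mul
        ((continuous_PP b).comp (cont_layer_v ℓ v))
    · exact continuous_const
  have h1 : ∀ a b : Mode K, ∫ x, (if (∀ i ∈ A, a i = b i) then
      PP ((layer ℓ x)ᴴ *ᵥ v) a * PP ((layer ℓ x)ᴴ *ᵥ v) b else 0) ∂(lay K)
      = (if (∀ i ∈ A, a i = b i) then TT ℓ v a * TT ℓ v b else 0)
        + (if (∀ i ∈ A, a i = b i) then sg (a ℓ) * sg (b ℓ) *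
        (if base ℓ a = base ℓ b then (DD ℓ v a ^ 2 + RR ℓ v a ^ 2) / 2 else 0) else 0) := by
    intro a b
    by_cases h : ∀ i ∈ A, a i = b i
    · simp only [if_pos h]
      exact int_PP_PP ℓ v a b
    · simp only [if_neg h, integral_zero, add_zero]
  unfold QQ
  rw [integral_finsetSum _ (fun a _ => integrable_finsetSum _ fun b _ => hint a b)]
  simp_rw [integral_finsetSum _ (fun b _ => hint _ b), h1, Finset.sum_add_distrib]
  rw [sum_TT ℓ A hA v, sum_diag ℓ A hA v, sum_EE]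
  unfold QQ
  ring

theorem sum_PP_layer (ℓ : Fin K) (x : Mode K → ℝ × ℝ) (v : Mode K → ℂ) :
    ∑ a, PP ((layer ℓ x)ᴴ *ᵥ v) a = ∑ a, PP v a := by
  have h1 : ∑ a, sg (a ℓ) * XX ℓ v a (x (base ℓ a)).1 = 0 := by
    have h2 : ∑ a, sg (a ℓ) * XX ℓ v a (x (base ℓ a)).1
        = - ∑ a, sg (a ℓ) * XX ℓ v a (x (base ℓ a)).1 := by
      conv_lhs => rw [← sum_flip ℓ]
      rw [← Finset.sum_neg_distrib]
      apply Finset.sum_congr rfl
      intro a _
      rw [base_flip, (XX_congr ℓ v (base_flip ℓ a)).2.2.1, flip_apply_same]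
      have : sg (1 - a ℓ) = - sg (a ℓ) := by
        rcases fin2 (a ℓ) with h | h <;> rw [h] <;> simp [sg]
      rw [this]; ring
    linarith
  simp_rw [PP_layer]
  rw [Finset.sum_add_distrib, h1, add_zero]
  simp_rw [TT_eq]
  rw [← Finset.sum_div, Finset.sum_add_distrib, sum_flip ℓ (fun a => PP v a)]
  ring

theorem QQ_empty (v : Mode K → ℂ) : QQ ∅ v = (∑ a, PP v a) ^ 2 := by
  unfold QQ
  simp [pow_two, Finset.sum_mul_sum]

theorem avg_QQ_empty (ℓ : Fin K) (v : Mode K → ℂ) :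
    ∫ x, QQ ∅ ((layer ℓ x)ᴴ *ᵥ v) ∂(lay K) = QQ ∅ v := by
  simp_rw [QQ_empty, sum_PP_layer]
  simp

/-- The output entry as a function of the angles of its gate. -/
noncomputable def UU (ℓ : Fin K) (v : Mode K → ℂ) (b : Mode K) (y : ℝ × ℝ) : ℂ :=
  conj (gate y.1 y.2 0 (b ℓ)) * v (base ℓ b) + conj (gate y.1 y.2 1 (b ℓ)) * v (top ℓ b)

theorem continuous_UU (ℓ : Fin K) (v : Mode K → ℂ) (b : Mode K) : Continuous (UU ℓ v b) := by
  unfold UU
  have h1 := continuous_gate 0 (b ℓ)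
  have h2 := continuous_gate 1 (b ℓ)
  exact ((Complex.continuous_conj.comp h1).mul continuous_const).add
    ((Complex.continuous_conj.comp h2).mul continuous_const)

theorem int_UU_sq (ℓ : Fin K) (v : Mode K → ℂ) (b : Mode K) :
    ∫ y, UU ℓ v b y ^ 2 ∂(unif.prod unif) = 0 := by
  rcases fin2 (b ℓ) with h | h
  · have h1 : ∀ y : ℝ × ℝ, UU ℓ v b y ^ 2 =
        (Real.cos y.1 * v (base ℓ b) - Real.sin y.1 * v (top ℓ b)) ^ 2 *
          Complex.exp (-Complex.I * y.2) := by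
      intro y
      unfold UU
      rw [h, gate_00, gate_10, map_mul, map_mul, conj_exp1, map_neg,
        Complex.conj_ofReal, Complex.conj_ofReal]
      have : Complex.exp (-Complex.I * y.2) = Complex.exp (-(Complex.I * y.2 / 2)) ^ 2 := by
        rw [← Complex.exp_nat_mul]; congr 1; push_cast; ring
      rw [this]; ring
    simp_rw [h1]
    rw [integral_prod_mul (μ := unif) (ν := unif)
      (fun θ : ℝ => (Real.cos θ * v (base ℓ b) - Real.sin θ * v (top ℓ b)) ^ 2)
      (fun φ : ℝ => Complex.exp (-Complex.I * φ)), unif_exp _ (Or.inr rfl), mul_zero]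
  · have h1 : ∀ y : ℝ × ℝ, UU ℓ v b y ^ 2 =
        (Real.sin y.1 * v (base ℓ b) + Real.cos y.1 * v (top ℓ b)) ^ 2 *
          Complex.exp (Complex.I * y.2) := by
      intro y
      unfold UU
      rw [h, gate_01, gate_11, map_mul, map_mul, conj_exp2,
        Complex.conj_ofReal, Complex.conj_ofReal]
      have : Complex.exp (Complex.I * y.2) = Complex.exp (Complex.I * y.2 / 2) ^ 2 := by
        rw [← Complex.exp_nat_mul]; congr 1; push_cast; ring
      rw [this]; ring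
    simp_rw [h1]
    rw [integral_prod_mul (μ := unif) (ν := unif)
      (fun θ : ℝ => (Real.sin θ * v (base ℓ b) + Real.cos θ * v (top ℓ b)) ^ 2)
      (fun φ : ℝ => Complex.exp (Complex.I * φ)), unif_exp _ (Or.inl rfl), mul_zero]

theorem base_flip_ne {ℓ m : Fin K} (h : m ≠ ℓ) (a : Mode K) :
    base ℓ a ≠ base ℓ (flip m a) := by
  intro h1
  have h2 := congrFun h1 m
  rw [base_apply_ne h, base_apply_ne h, flip_apply_same] at h2
  exact fin2_ne.2 h2 rfl

theorem avg_HH {ℓ m : Fin K} (h : m ≠ ℓ) (v : Mode K → ℂ) :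
    ∫ x, HH m ((layer ℓ x)ᴴ *ᵥ v) ∂(lay K) = 0 := by
  have hu : ∀ (x : Mode K → ℝ × ℝ) (b : Mode K),
      ((layer ℓ x)ᴴ *ᵥ v) b = UU ℓ v b (x (base ℓ b)) := fun x b => mulVec_apply ℓ x v b
  unfold HH
  simp_rw [hu]
  have hc : ∀ a : Mode K, Continuous fun x : Mode K → ℝ × ℝ =>
      UU ℓ v a (x (base ℓ a)) ^ 2 * conj (UU ℓ v (flip m a) (x (base ℓ (flip m a)))) ^ 2 := by
    intro a
    have h1 : Continuous fun x : Mode K → ℝ × ℝ => UU ℓ v a (x (base ℓ a)) :=
      (continuous_UU ℓ v a).comp (continuous_apply _)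
    have h2 : Continuous fun x : Mode K → ℝ × ℝ =>
        UU ℓ v (flip m a) (x (base ℓ (flip m a))) :=
      (continuous_UU ℓ v (flip m a)).comp (continuous_apply _)
    exact (h1.pow 2).mul ((Complex.continuous_conj.comp h2).pow 2)
  have hi : ∀ a : Mode K, Integrable (fun x : Mode K → ℝ × ℝ =>
      (UU ℓ v a (x (base ℓ a)) ^ 2 *
        conj (UU ℓ v (flip m a) (x (base ℓ (flip m a)))) ^ 2).re) (lay K) := fun a =>
    (carried_lay K).integrable (Complex.continuous_re.comp (hc a))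
  rw [integral_finsetSum _ (fun a _ => hi a)]
  apply Finset.sum_eq_zero
  intro a _
  have h1 := integral_re ((carried_lay K).integrable (hc a))
  have h2 := two_eval (base_flip_ne h a) (fun y => UU ℓ v a y ^ 2)
    (fun y => conj (UU ℓ v (flip m a) y) ^ 2)
  rw [int_UU_sq, zero_mul] at h2
  rw [h2] at h1
  simpa using h1

end Pool.Agent.X83.BF
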