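import Mathlib

open MeasureTheory Matrix
open scoped Kronecker BigOperators ComplexConjugate

namespace Pool.Agent.X83.BF

/-- The `n = 2 ^ K` modes, written by their `K` binary digits: the mode `a` is the number
`∑ ℓ, a ℓ * 2 ^ ℓ`. -/
abbrev Mode (K : ℕ) : Type := Fin K → Fin 2

/-- The gate `V(θ, φ)` of the problem. -/
noncomputable def gate (θ φ : ℝ) : Matrix (Fin 2) (Fin 2) ℂ :=
  !![(Real.cos θ : ℂ), (Real.sin θ : ℂ); -(Real.sin θ : ℂ), (Real.cos θ : ℂ)] *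
    Matrix.diagonal ![Complex.exp (Complex.I * φ / 2), Complex.exp (-(Complex.I * φ / 2))]

/-- The member of the pair of `a` (in the layer that pairs modes differing in digit `ℓ`) whose
digit `ℓ` is `0`. -/
def base {K : ℕ} (ℓ : Fin K) (a : Mode K) : Mode K := Function.update a ℓ 0

/-- The layer of digit `ℓ`: on each pair of modes that differ in digit `ℓ` exactly, it acts by the
gate of that pair; the angles of the pair `{b, b + 2 ^ ℓ}` are `x b`. -/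
noncomputable def layer {K : ℕ} (ℓ : Fin K) (x : Mode K → ℝ × ℝ) :
    Matrix (Mode K) (Mode K) ℂ :=
  Matrix.of fun a b =>
    if base ℓ a = base ℓ b then gate (x (base ℓ a)).1 (x (base ℓ a)).2 (a ℓ) (b ℓ) else 0

/-- The butterfly `U_K ⋯ U_1`. -/
noncomputable def butterfly {K : ℕ} (ω : Fin K → Mode K → ℝ × ℝ) :
    Matrix (Mode K) (Mode K) ℂ :=
  ((List.ofFn fun ℓ : Fin K => layer ℓ (ω ℓ)).reverse).prod

/-- The uniform distribution on `[0, 2π)`. -/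
noncomputable def unif : Measure ℝ :=
  ProbabilityTheory.cond volume (Set.Ico (0 : ℝ) (2 * Real.pi))

/-- All the angles: independent and uniform on `[0, 2π)`. -/
noncomputable def angles (K : ℕ) : Measure (Fin K → Mode K → ℝ × ℝ) :=
  Measure.pi fun _ : Fin K => Measure.pi fun _ : Mode K => unif.prod unif

/-- Index set of the basis of `(ℂⁿ ⊗ ℂⁿ) ⊗ (ℂⁿ ⊗ ℂⁿ)`. -/
abbrev Idx (K : ℕ) : Type := (Mode K × Mode K) × (Mode K × Mode K)

/-- `W ⊗ W ⊗ W ⊗ W`, whose restriction to `Λ² ⊗ Λ²` is `Λ²(W) ⊗ Λ²(W)`. -/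
noncomputable def four {K : ℕ} (W : Matrix (Mode K) (Mode K) ℂ) : Matrix (Idx K) (Idx K) ℂ :=
  (W ⊗ₖ W) ⊗ₖ (W ⊗ₖ W)

/-- The elements of `End(Λ²ℂⁿ ⊗ Λ²ℂⁿ)`, as matrices on `(ℂⁿ ⊗ ℂⁿ) ⊗ (ℂⁿ ⊗ ℂⁿ)`: the matrices that
are antisymmetric in each of the two pairs of row indices and each of the two pairs of column
indices. -/
def Anti {K : ℕ} (Y : Matrix (Idx K) (Idx K) ℂ) : Prop :=
  ∀ p q : Mode K × Mode K, ∀ j : Idx K,
    Y (p.swap, q) j = - Y (p, q) j ∧ Y (p, q.swap) j = - Y (p, q) j ∧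
    Y j (p.swap, q) = - Y j (p, q) ∧ Y j (p, q.swap) = - Y j (p, q)

/-- The two-copy twirl `Φ_n`. -/
noncomputable def Phi (K : ℕ) (Y : Matrix (Idx K) (Idx K) ℂ) : Matrix (Idx K) (Idx K) ℂ :=
  Matrix.of fun i j =>
    ∫ ω, (four (butterfly ω) * Y * (four (butterfly ω))ᴴ) i j ∂(angles K)

/-- Question Q1 of the problem: for some `C > 0` and `K₀`, for every `K ≥ K₀` the fixed-point space
has dimension `3` and every eigenvalue other than `1` is at most `C / 2 ^ K` in absolute value. -/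
def Q1 : Prop :=
  ∃ C : ℝ, 0 < C ∧ ∃ K₀ : ℕ, ∀ K : ℕ, K₀ ≤ K →
    Set.finrank ℂ {Y : Matrix (Idx K) (Idx K) ℂ | Anti Y ∧ Phi K Y = Y} = 3 ∧
    ∀ z : ℂ, z ≠ 1 →
      (∃ Y : Matrix (Idx K) (Idx K) ℂ, Y ≠ 0 ∧ Anti Y ∧ Phi K Y = z • Y) →
      ‖z‖ ≤ C / 2 ^ K

end Pool.Agent.X83.BF
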