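import Pool.Agent.X83.BF.Meas

open MeasureTheory Matrix
open scoped Kronecker BigOperators ComplexConjugate

namespace Pool.Agent.X83.BF

variable {K : ℕ}

/-- The member of the pair of `a` whose digit `ℓ` is `1`. -/
def top (ℓ : Fin K) (a : Mode K) : Mode K := Function.update a ℓ 1

/-- The partner of `a` in the layer `ℓ`. -/
def flip (ℓ : Fin K) (a : Mode K) : Mode K := Function.update a ℓ (1 - a ℓ)

theorem fin2 (x : Fin 2) : x = 0 ∨ x = 1 := by fin_cases x <;> simp

theorem base_eq {ℓ : Fin K} {a : Mode K} (h : a ℓ = 0) : base ℓ a = a := by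
  unfold base; rw [← h]; exact Function.update_eq_self _ _

theorem top_eq {ℓ : Fin K} {a : Mode K} (h : a ℓ = 1) : top ℓ a = a := by
  unfold top; rw [← h]; exact Function.update_eq_self _ _

theorem flip_flip (ℓ : Fin K) (a : Mode K) : flip ℓ (flip ℓ a) = a := by
  unfold flip
  rcases fin2 (a ℓ) with h | h <;> simp [h] <;> rw [← h] <;> exact Function.update_eq_self _ _

theorem flip_apply_same (ℓ : Fin K) (a : Mode K) : flip ℓ a ℓ = 1 - a ℓ := by
  unfold flip; simp

theorem flip_apply_ne {ℓ i : Fin K} (h : i ≠ ℓ) (a : Mode K) : flip ℓ a i = a i := by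
  unfold flip; simp [h]

theorem base_apply_same (ℓ : Fin K) (a : Mode K) : base ℓ a ℓ = 0 := by
  unfold base; simp

theorem base_apply_ne {ℓ i : Fin K} (h : i ≠ ℓ) (a : Mode K) : base ℓ a i = a i := by
  unfold base; simp [h]

theorem top_apply_same (ℓ : Fin K) (a : Mode K) : top ℓ a ℓ = 1 := by
  unfold top; simp

theorem top_apply_ne {ℓ i : Fin K} (h : i ≠ ℓ) (a : Mode K) : top ℓ a i = a i := by
  unfold top; simp [h]

theorem base_flip (ℓ : Fin K) (a : Mode K) : base ℓ (flip ℓ a) = base ℓ a := by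
  unfold base flip; simp

theorem top_flip (ℓ : Fin K) (a : Mode K) : top ℓ (flip ℓ a) = top ℓ a := by
  unfold top flip; simp

theorem base_base (ℓ : Fin K) (a : Mode K) : base ℓ (base ℓ a) = base ℓ a := by
  unfold base; simp

theorem base_top (ℓ : Fin K) (a : Mode K) : base ℓ (top ℓ a) = base ℓ a := by
  unfold base top; simp

theorem top_base (ℓ : Fin K) (a : Mode K) : top ℓ (base ℓ a) = top ℓ a := by
  unfold base top; simp

theorem base_ne_top (ℓ : Fin K) (a : Mode K) : base ℓ a ≠ top ℓ a := by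
  intro h
  have := congrFun h ℓ
  rw [base_apply_same, top_apply_same] at this
  exact absurd this (by decide)

theorem base_congr {ℓ : Fin K} {a b : Mode K} (h : base ℓ a = base ℓ b) :
    top ℓ a = top ℓ b := by
  rw [← top_base, h, top_base]

theorem base_eq_iff {ℓ : Fin K} {a b : Mode K} :
    base ℓ a = base ℓ b ↔ a = base ℓ b ∨ a = top ℓ b := by
  constructor
  · intro h
    rcases fin2 (a ℓ) with h0 | h1
    · left; rw [← h, base_eq h0]
    · right; rw [← base_congr h, top_eq h1]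
  · rintro (h | h)
    · rw [h, base_base]
    · rw [h, base_top]

theorem eq_of_base {ℓ : Fin K} {a b : Mode K} (h : base ℓ a = base ℓ b) (h' : a ℓ = b ℓ) :
    a = b := by
  funext i
  by_cases hi : i = ℓ
  · rw [hi, h']
  · rw [← base_apply_ne hi a, h, base_apply_ne hi b]

/-- Sum over the pair of `b`. -/
theorem sum_pair_base {E : Type*} [AddCommMonoid E] (ℓ : Fin K) (b : Mode K) (g : Mode K → E) :
    ∑ a, (if base ℓ a = base ℓ b then g a else 0) = g (base ℓ b) + g (top ℓ b) := by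
  rw [← Finset.sum_filter]
  have : (Finset.univ.filter fun a => base ℓ a = base ℓ b) = {base ℓ b, top ℓ b} := by
    ext a
    simp [base_eq_iff]
  rw [this, Finset.sum_pair (base_ne_top ℓ b)]

theorem gate_00 (θ φ : ℝ) : gate θ φ 0 0 = Real.cos θ * Complex.exp (Complex.I * φ / 2) := by
  simp [gate, Matrix.mul_apply, Matrix.diagonal]

theorem gate_10 (θ φ : ℝ) : gate θ φ 1 0 = -Real.sin θ * Complex.exp (Complex.I * φ / 2) := by
  simp [gate, Matrix.mul_apply, Matrix.diagonal]

theorem gate_01 (θ φ : ℝ) : gate θ φ 0 1 = Real.sin θ * Complex.exp (-(Complex.I * φ / 2)) := by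
  simp [gate, Matrix.mul_apply, Matrix.diagonal]

theorem gate_11 (θ φ : ℝ) : gate θ φ 1 1 = Real.cos θ * Complex.exp (-(Complex.I * φ / 2)) := by
  simp [gate, Matrix.mul_apply, Matrix.diagonal]

theorem conj_exp1 (φ : ℝ) : conj (Complex.exp (Complex.I * φ / 2))
    = Complex.exp (-(Complex.I * φ / 2)) := by
  rw [← Complex.exp_conj]
  congr 1
  rw [map_div₀, map_mul, Complex.conj_I, Complex.conj_ofReal]
  have : conj (2 : ℂ) = 2 := Complex.conj_ofNat 2
  rw [this]; ring

theorem conj_exp2 (φ : ℝ) : conj (Complex.exp (-(Complex.I * φ / 2)))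
    = Complex.exp (Complex.I * φ / 2) := by
  rw [← conj_exp1, Complex.conj_conj]

/-- The output `(layer ℓ x)ᴴ v`. -/
theorem mulVec_apply (ℓ : Fin K) (x : Mode K → ℝ × ℝ) (v : Mode K → ℂ) (b : Mode K) :
    ((layer ℓ x)ᴴ *ᵥ v) b =
      conj (gate (x (base ℓ b)).1 (x (base ℓ b)).2 0 (b ℓ)) * v (base ℓ b)
      + conj (gate (x (base ℓ b)).1 (x (base ℓ b)).2 1 (b ℓ)) * v (top ℓ b) := by
  have h := sum_pair_base ℓ b (fun a =>
    conj (gate (x (base ℓ a)).1 (x (base ℓ a)).2 (a ℓ) (b ℓ)) * v a)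
  simp only [base_base, base_top, base_apply_same, top_apply_same] at h
  rw [← h, Matrix.mulVec, dotProduct]
  apply Finset.sum_congr rfl
  intro a _
  rw [Matrix.conjTranspose_apply, layer, Matrix.of_apply]
  split_ifs with h1
  · rfl
  · simp

theorem mulVec_lo (ℓ : Fin K) (x : Mode K → ℝ × ℝ) (v : Mode K → ℂ) (b : Mode K) (h : b ℓ = 0) :
    ((layer ℓ x)ᴴ *ᵥ v) b = Complex.exp (-(Complex.I * (x (base ℓ b)).2 / 2)) *
      (Real.cos (x (base ℓ b)).1 * v (base ℓ b) - Real.sin (x (base ℓ b)).1 * v (top ℓ b)) := by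
  rw [mulVec_apply, h, gate_00, gate_10, map_mul, map_mul, conj_exp1, map_neg,
    Complex.conj_ofReal, Complex.conj_ofReal]
  ring

theorem mulVec_hi (ℓ : Fin K) (x : Mode K → ℝ × ℝ) (v : Mode K → ℂ) (b : Mode K) (h : b ℓ = 1) :
    ((layer ℓ x)ᴴ *ᵥ v) b = Complex.exp (Complex.I * (x (base ℓ b)).2 / 2) *
      (Real.sin (x (base ℓ b)).1 * v (base ℓ b) + Real.cos (x (base ℓ b)).1 * v (top ℓ b)) := by
  rw [mulVec_apply, h, gate_01, gate_11, map_mul, map_mul, conj_exp2,
    Complex.conj_ofReal, Complex.conj_ofReal]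
  ring

theorem gate_unitary (θ φ : ℝ) (s t : Fin 2) :
    conj (gate θ φ 0 s) * gate θ φ 0 t + conj (gate θ φ 1 s) * gate θ φ 1 t
      = if s = t then 1 else 0 := by
  have hcs : (Real.cos θ : ℂ) ^ 2 + (Real.sin θ : ℂ) ^ 2 = 1 := by
    rw [← Complex.ofReal_pow, ← Complex.ofReal_pow, ← Complex.ofReal_add,
      Real.cos_sq_add_sin_sq, Complex.ofReal_one]
  have he : Complex.exp (-(Complex.I * φ / 2)) * Complex.exp (Complex.I * φ / 2) = 1 := by
    rw [← Complex.exp_add, neg_add_cancel, Complex.exp_zero]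
  rcases fin2 s with hs | hs <;> rcases fin2 t with ht | ht <;> rw [hs, ht]
  · rw [if_pos rfl, gate_00, gate_10, map_mul, map_mul, map_neg, conj_exp1, Complex.conj_ofReal,
      Complex.conj_ofReal]
    linear_combination he * ((Real.cos θ : ℂ) ^ 2 + (Real.sin θ : ℂ) ^ 2) + hcs
  · rw [if_neg (by decide), gate_00, gate_10, gate_01, gate_11, map_mul, map_mul, map_neg,
      conj_exp1, Complex.conj_ofReal, Complex.conj_ofReal]
    ring
  · rw [if_neg (by decide), gate_00, gate_10, gate_01, gate_11, map_mul, map_mul,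
      conj_exp2, Complex.conj_ofReal, Complex.conj_ofReal]
    ring
  · rw [if_pos rfl, gate_01, gate_11, map_mul, map_mul, conj_exp2, Complex.conj_ofReal,
      Complex.conj_ofReal]
    linear_combination he * ((Real.cos θ : ℂ) ^ 2 + (Real.sin θ : ℂ) ^ 2) + hcs

theorem layer_unitary (ℓ : Fin K) (x : Mode K → ℝ × ℝ) : (layer ℓ x)ᴴ * layer ℓ x = 1 := by
  ext b c
  rw [Matrix.mul_apply]
  by_cases hbc : base ℓ b = base ℓ c
  · have h := sum_pair_base ℓ b (fun a =>
      conj (gate (x (base ℓ a)).1 (x (base ℓ a)).2 (a ℓ) (b ℓ)) *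
        gate (x (base ℓ a)).1 (x (base ℓ a)).2 (a ℓ) (c ℓ))
    simp only [base_base, base_top, base_apply_same, top_apply_same] at h
    rw [gate_unitary] at h
    have h2 : ∀ a : Mode K, (layer ℓ x)ᴴ b a * layer ℓ x a c
        = if base ℓ a = base ℓ b then
          conj (gate (x (base ℓ a)).1 (x (base ℓ a)).2 (a ℓ) (b ℓ)) *
          gate (x (base ℓ a)).1 (x (base ℓ a)).2 (a ℓ) (c ℓ) else 0 := by
      intro a
      rw [Matrix.conjTranspose_apply, layer, Matrix.of_apply, Matrix.of_apply, ← hbc]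
      split_ifs with h1
      · rfl
      · simp
    rw [Finset.sum_congr rfl fun a _ => h2 a, h, Matrix.one_apply]
    by_cases h3 : b ℓ = c ℓ
    · rw [if_pos h3, if_pos (eq_of_base hbc h3)]
    · rw [if_neg h3, if_neg (fun h4 => h3 (by rw [h4]))]
  · rw [Matrix.one_apply, if_neg (fun h => hbc (by rw [h]))]
    apply Finset.sum_eq_zero
    intro a _
    rw [Matrix.conjTranspose_apply, layer, Matrix.of_apply, Matrix.of_apply]
    by_cases h1 : base ℓ a = base ℓ b
    · rw [if_neg (fun h2 => hbc (h1.symm.trans h2)), mul_zero]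
    · rw [if_neg h1, star_zero, zero_mul]

/-- `P_a = |v_a|²`. -/
noncomputable def PP (v : Mode K → ℂ) (a : Mode K) : ℝ := Complex.normSq (v a)

/-- Mean of the pair. -/
noncomputable def TT (ℓ : Fin K) (v : Mode K → ℂ) (a : Mode K) : ℝ :=
  (PP v (base ℓ a) + PP v (top ℓ a)) / 2

/-- Half difference of the pair. -/
noncomputable def DD (ℓ : Fin K) (v : Mode K → ℂ) (a : Mode K) : ℝ :=
  (PP v (base ℓ a) - PP v (top ℓ a)) / 2

/-- Real part of the cross term. -/
noncomputable def RR (ℓ : Fin K) (v : Mode K → ℂ) (a : Mode K) : ℝ :=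
  (v (base ℓ a) * conj (v (top ℓ a))).re

/-- The fluctuation. -/
noncomputable def XX (ℓ : Fin K) (v : Mode K → ℂ) (a : Mode K) (θ : ℝ) : ℝ :=
  Real.cos (2 * θ) * DD ℓ v a - Real.sin (2 * θ) * RR ℓ v a

/-- The sign of the digit. -/
def sg (s : Fin 2) : ℝ := if s = 0 then 1 else -1

theorem normSq_exp1 (φ : ℝ) : Complex.normSq (Complex.exp (Complex.I * φ / 2)) = 1 := by
  rw [← Complex.ofReal_inj, ← Complex.mul_conj, conj_exp1, ← Complex.exp_add, add_neg_cancel,
    Complex.exp_zero, Complex.ofReal_one]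

theorem normSq_exp2 (φ : ℝ) : Complex.normSq (Complex.exp (-(Complex.I * φ / 2))) = 1 := by
  rw [← conj_exp1, Complex.normSq_conj, normSq_exp1]

theorem PP_layer (ℓ : Fin K) (x : Mode K → ℝ × ℝ) (v : Mode K → ℂ) (a : Mode K) :
    PP ((layer ℓ x)ᴴ *ᵥ v) a = TT ℓ v a + sg (a ℓ) * XX ℓ v a (x (base ℓ a)).1 := by
  set θ := (x (base ℓ a)).1 with hθ
  have hc : Real.cos (2 * θ) = Real.cos θ ^ 2 - Real.sin θ ^ 2 := Real.cos_two_mul' θ
  have hs : Real.sin (2 * θ) = 2 * Real.sin θ * Real.cos θ := Real.sin_two_mul θ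
  have h1 : Real.cos θ ^ 2 + Real.sin θ ^ 2 = 1 := Real.cos_sq_add_sin_sq θ
  rcases fin2 (a ℓ) with h | h
  · unfold PP
    rw [mulVec_lo ℓ x v a h, Complex.normSq_mul, normSq_exp2, one_mul, Complex.normSq_apply,
      ← hθ, h]
    simp only [XX, TT, DD, RR, PP, sg, Complex.normSq_apply, Complex.sub_re, Complex.sub_im,
      Complex.mul_re, Complex.mul_im, Complex.ofReal_re, Complex.ofReal_im, Complex.conj_re,
      Complex.conj_im, hc, hs, if_true]
    set p := (v (base ℓ a)).re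
    set q := (v (base ℓ a)).im
    set p' := (v (top ℓ a)).re
    set q' := (v (top ℓ a)).im
    linear_combination (p ^ 2 + q ^ 2 + p' ^ 2 + q' ^ 2) / 2 * h1
  · unfold PP
    rw [mulVec_hi ℓ x v a h, Complex.normSq_mul, normSq_exp1, one_mul, Complex.normSq_apply,
      ← hθ, h]
    simp only [XX, TT, DD, RR, PP, sg, Complex.normSq_apply, Complex.add_re, Complex.add_im,
      Complex.mul_re, Complex.mul_im, Complex.ofReal_re, Complex.ofReal_im, Complex.conj_re,
      Complex.conj_im, hc, hs, one_ne_zero, if_false]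
    set p := (v (base ℓ a)).re
    set q := (v (base ℓ a)).im
    set p' := (v (top ℓ a)).re
    set q' := (v (top ℓ a)).im
    linear_combination (p ^ 2 + q ^ 2 + p' ^ 2 + q' ^ 2) / 2 * h1

end Pool.Agent.X83.BF
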