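import Pool.Agent.X83.BF.Stage

open MeasureTheory Matrix
open scoped Kronecker BigOperators ComplexConjugate

namespace Pool.Agent.X83.BF

variable {K : ℕ}

theorem Wl_unitary (m : ℕ) (L : Fin m → (Mode K → ℝ × ℝ) → Matrix (Mode K) (Mode K) ℂ)
    (hL : ∀ i x, (L i x)ᴴ * L i x = 1) (ω : Fin m → Mode K → ℝ × ℝ) :
    (Wl m L ω)ᴴ * Wl m L ω = 1 := by
  induction m with
  | zero => rw [Wl_zero]; simp
  | succ m ih =>
    rw [Wl_succ, conjTranspose_mul, Matrix.mul_assoc,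
      ← Matrix.mul_assoc (L (Fin.last m) (ω (Fin.last m)))ᴴ, hL, Matrix.one_mul]
    exact ih _ (fun i x => hL _ x) _

theorem butterfly_unitary (ω : Fin K → Mode K → ℝ × ℝ) :
    (butterfly ω)ᴴ * butterfly ω = 1 :=
  Wl_unitary K (fun ℓ x => layer ℓ x) (fun ℓ x => layer_unitary ℓ x) ω

/-- The rank one matrix `w wᴴ`. -/
noncomputable def pj (w : Mode K → ℂ) : Matrix (Mode K) (Mode K) ℂ := vecMulVec w (star w)

/-- The observable. -/
noncomputable def GG (w : Mode K → ℂ) : Matrix (Idx K) (Idx K) ℂ :=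
  (pj w ⊗ₖ (1 : Matrix (Mode K) (Mode K) ℂ)) ⊗ₖ (pj w ⊗ₖ (1 : Matrix (Mode K) (Mode K) ℂ))

/-- The test functional. -/
noncomputable def FF (Y : Matrix (Idx K) (Idx K) ℂ) (w : Mode K → ℂ) : ℂ := (Y * GG w).trace

theorem pj_conj (W : Matrix (Mode K) (Mode K) ℂ) (w : Mode K → ℂ) :
    Wᴴ * pj w * W = pj (Wᴴ *ᵥ w) := by
  unfold pj
  rw [star_mulVec, conjTranspose_conjTranspose, mul_vecMulVec, vecMulVec_mul]

theorem four_conj (W : Matrix (Mode K) (Mode K) ℂ) :
    (four W)ᴴ = (Wᴴ ⊗ₖ Wᴴ) ⊗ₖ (Wᴴ ⊗ₖ Wᴴ) := by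
  unfold four
  rw [conjTranspose_kronecker, conjTranspose_kronecker]

theorem GG_conj (W : Matrix (Mode K) (Mode K) ℂ) (hW : Wᴴ * W = 1) (w : Mode K → ℂ) :
    (four W)ᴴ * GG w * four W = GG (Wᴴ *ᵥ w) := by
  rw [four_conj]
  unfold four GG
  rw [← mul_kronecker_mul, ← mul_kronecker_mul, ← mul_kronecker_mul, ← mul_kronecker_mul,
    Matrix.mul_one, hW, pj_conj]

theorem FF_conj (W : Matrix (Mode K) (Mode K) ℂ) (hW : Wᴴ * W = 1)
    (Y : Matrix (Idx K) (Idx K) ℂ) (w : Mode K → ℂ) :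
    FF (four W * Y * (four W)ᴴ) w = FF Y (Wᴴ *ᵥ w) := by
  unfold FF
  rw [← GG_conj W hW w, Matrix.mul_assoc (four W * Y), Matrix.mul_assoc (four W) Y,
    trace_mul_comm (four W), Matrix.mul_assoc Y]

theorem FF_expand (Y : Matrix (Idx K) (Idx K) ℂ) (w : Mode K → ℂ) :
    FF Y w = ∑ i, ∑ j, Y i j * GG w j i := by
  unfold FF
  simp only [Matrix.trace, Matrix.diag_apply, Matrix.mul_apply]

theorem FF_add (Y Z : Matrix (Idx K) (Idx K) ℂ) (w : Mode K → ℂ) :
    FF (Y + Z) w = FF Y w + FF Z w := by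
  unfold FF; rw [Matrix.add_mul, trace_add]

theorem FF_smul (c : ℂ) (Y : Matrix (Idx K) (Idx K) ℂ) (w : Mode K → ℂ) :
    FF (c • Y) w = c * FF Y w := by
  unfold FF; rw [Matrix.smul_mul, trace_smul, smul_eq_mul]

theorem continuous_four : Continuous (four (K := K)) := by
  refine continuous_matrix fun i j => ?_
  simp only [four, kronecker_apply]
  have h : ∀ a b : Mode K, Continuous fun W : Matrix (Mode K) (Mode K) ℂ => W a b :=
    fun a b => (continuous_apply b).comp (continuous_apply a)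
  exact ((h _ _).mul (h _ _)).mul ((h _ _).mul (h _ _))

theorem continuous_twirl (Y : Matrix (Idx K) (Idx K) ℂ) :
    Continuous fun ω : Fin K → Mode K → ℝ × ℝ =>
      four (butterfly ω) * Y * (four (butterfly ω))ᴴ := by
  have h : Continuous fun ω : Fin K → Mode K → ℝ × ℝ => four (butterfly ω) :=
    continuous_four.comp continuous_butterfly
  exact (h.matrix_mul continuous_const).matrix_mul h.matrix_conjTranspose

theorem integrable_twirl (Y : Matrix (Idx K) (Idx K) ℂ) (i j : Idx K) :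
    Integrable (fun ω => (four (butterfly ω) * Y * (four (butterfly ω))ᴴ) i j) (angles K) := by
  apply (carried_angles K).integrable
  exact (continuous_apply j).comp ((continuous_apply i).comp (continuous_twirl Y))

/-- The twirl as a linear map. -/
noncomputable def PhiL (K : ℕ) :
    Matrix (Idx K) (Idx K) ℂ →ₗ[ℂ] Matrix (Idx K) (Idx K) ℂ where
  toFun := Phi K
  map_add' := by
    intro Y Z
    ext i j
    rw [Matrix.add_apply]
    simp only [Phi, Matrix.of_apply]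
    rw [← integral_add (integrable_twirl Y i j) (integrable_twirl Z i j)]
    congr 1
    funext ω
    rw [Matrix.mul_add, Matrix.add_mul, Matrix.add_apply]
  map_smul' := by
    intro c Y
    ext i j
    rw [RingHom.id_apply, Matrix.smul_apply]
    simp only [Phi, Matrix.of_apply]
    rw [smul_eq_mul, ← integral_const_mul]
    congr 1
    funext ω
    rw [Matrix.mul_smul, Matrix.smul_mul, Matrix.smul_apply, smul_eq_mul]

theorem PhiL_apply (Y : Matrix (Idx K) (Idx K) ℂ) : PhiL K Y = Phi K Y := rfl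

/-- The functional of the twirl. -/
theorem FF_Phi (Y : Matrix (Idx K) (Idx K) ℂ) (w : Mode K → ℂ) :
    FF (Phi K Y) w = ∫ ω, FF Y ((butterfly ω)ᴴ *ᵥ w) ∂(angles K) := by
  have h1 : ∀ ω : Fin K → Mode K → ℝ × ℝ, FF Y ((butterfly ω)ᴴ *ᵥ w)
      = ∑ i, ∑ j, (four (butterfly ω) * Y * (four (butterfly ω))ᴴ) i j * GG w j i := by
    intro ω
    rw [← FF_conj _ (butterfly_unitary ω), FF_expand]
  simp_rw [h1]
  rw [integral_finsetSum _ (fun i _ => integrable_finsetSum _ fun j _ =>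
    (integrable_twirl Y i j).mul_const _), FF_expand]
  apply Finset.sum_congr rfl
  intro i _
  rw [integral_finsetSum _ (fun j _ => (integrable_twirl Y i j).mul_const _)]
  apply Finset.sum_congr rfl
  intro j _
  rw [integral_mul_const]
  rfl

/-- Swap in the first factor. -/
def sw1 (K : ℕ) : Idx K ≃ Idx K := Equiv.prodCongr (Equiv.prodComm _ _) (Equiv.refl _)

/-- Swap in the second factor. -/
def sw2 (K : ℕ) : Idx K ≃ Idx K := Equiv.prodCongr (Equiv.refl _) (Equiv.prodComm _ _)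

theorem anti_iff (Y : Matrix (Idx K) (Idx K) ℂ) :
    Anti Y ↔ Y.submatrix (sw1 K) id = -Y ∧ Y.submatrix (sw2 K) id = -Y ∧
      Y.submatrix id (sw1 K) = -Y ∧ Y.submatrix id (sw2 K) = -Y := by
  constructor
  · intro h
    refine ⟨?_, ?_, ?_, ?_⟩
    · ext ⟨p, q⟩ j; exact (h p q j).1
    · ext ⟨p, q⟩ j; exact (h p q j).2.1
    · ext j ⟨p, q⟩; exact (h p q j).2.2.1
    · ext j ⟨p, q⟩; exact (h p q j).2.2.2
  · rintro ⟨h1, h2, h3, h4⟩ p q j
    exact ⟨congrFun (congrFun h1 (p, q)) j, congrFun (congrFun h2 (p, q)) j,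
      congrFun (congrFun h3 j) (p, q), congrFun (congrFun h4 j) (p, q)⟩

theorem four_sw1 (W : Matrix (Mode K) (Mode K) ℂ) :
    (four W).submatrix (sw1 K) (sw1 K) = four W := by
  ext ⟨⟨a, b⟩, ⟨c, d⟩⟩ ⟨⟨a', b'⟩, ⟨c', d'⟩⟩
  change (W b b' * W a a') * (W c c' * W d d') = (W a a' * W b b') * (W c c' * W d d')
  ring

theorem four_sw2 (W : Matrix (Mode K) (Mode K) ℂ) :
    (four W).submatrix (sw2 K) (sw2 K) = four W := by
  ext ⟨⟨a, b⟩, ⟨c, d⟩⟩ ⟨⟨a', b'⟩, ⟨c', d'⟩⟩
  change (W a a' * W b b') * (W d d' * W c c') = (W a a' * W b b') * (W c c' * W d d')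
  ring

theorem twirl_left (e : Idx K ≃ Idx K) (W : Matrix (Mode K) (Mode K) ℂ)
    (hW : (four W).submatrix e e = four W) (Y : Matrix (Idx K) (Idx K) ℂ)
    (hY : Y.submatrix e id = -Y) :
    (four W * Y * (four W)ᴴ).submatrix e id = -(four W * Y * (four W)ᴴ) := by
  have h1 := submatrix_mul_equiv (four W * Y) (four W)ᴴ e (Equiv.refl _) id
  have h2 := submatrix_mul_equiv (four W) Y e e id
  rw [hW, hY] at h2
  have h3 : ((four W)ᴴ).submatrix (Equiv.refl (Idx K)) id = (four W)ᴴ := by ext; rfl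
  have h4 : (four W * Y).submatrix e (Equiv.refl (Idx K)) = (four W * Y).submatrix e id := by
    ext; rfl
  rw [h3, h4, ← h2] at h1
  rw [← h1, Matrix.mul_neg, Matrix.neg_mul]

theorem twirl_right (e : Idx K ≃ Idx K) (W : Matrix (Mode K) (Mode K) ℂ)
    (hW : (four W).submatrix e e = four W) (Y : Matrix (Idx K) (Idx K) ℂ)
    (hY : Y.submatrix id e = -Y) :
    (four W * Y * (four W)ᴴ).submatrix id e = -(four W * Y * (four W)ᴴ) := by
  have hWH : ((four W)ᴴ).submatrix e e = (four W)ᴴ := by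
    rw [← conjTranspose_submatrix, hW]
  have h1 := submatrix_mul_equiv (four W) (Y * (four W)ᴴ) id (Equiv.refl _) e
  have h2 := submatrix_mul_equiv Y (four W)ᴴ id e e
  rw [hWH, hY] at h2
  have h3 : (four W).submatrix id (Equiv.refl (Idx K)) = four W := by ext; rfl
  have h4 : (Y * (four W)ᴴ).submatrix (Equiv.refl (Idx K)) e = (Y * (four W)ᴴ).submatrix id e := by
    ext; rfl
  rw [h3, h4, ← h2] at h1
  rw [Matrix.mul_assoc, ← h1, Matrix.neg_mul, Matrix.mul_neg]

theorem anti_twirl (W : Matrix (Mode K) (Mode K) ℂ) (Y : Matrix (Idx K) (Idx K) ℂ)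
    (hY : Anti Y) : Anti (four W * Y * (four W)ᴴ) := by
  rw [anti_iff] at hY ⊢
  obtain ⟨h1, h2, h3, h4⟩ := hY
  exact ⟨twirl_left _ W (four_sw1 W) Y h1, twirl_left _ W (four_sw2 W) Y h2,
    twirl_right _ W (four_sw1 W) Y h3, twirl_right _ W (four_sw2 W) Y h4⟩

theorem anti_Phi (Y : Matrix (Idx K) (Idx K) ℂ) (hY : Anti Y) : Anti (Phi K Y) := by
  intro p q j
  simp only [Phi, Matrix.of_apply]
  refine ⟨?_, ?_, ?_, ?_⟩
  · rw [← integral_neg]; congr 1; funext ω; exact (anti_twirl _ Y hY p q j).1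
  · rw [← integral_neg]; congr 1; funext ω; exact (anti_twirl _ Y hY p q j).2.1
  · rw [← integral_neg]; congr 1; funext ω; exact (anti_twirl _ Y hY p q j).2.2.1
  · rw [← integral_neg]; congr 1; funext ω; exact (anti_twirl _ Y hY p q j).2.2.2

theorem anti_zero : Anti (0 : Matrix (Idx K) (Idx K) ℂ) := by
  intro p q j; simp

theorem anti_add {Y Z : Matrix (Idx K) (Idx K) ℂ} (hY : Anti Y) (hZ : Anti Z) :
    Anti (Y + Z) := by
  intro p q j
  obtain ⟨a1, a2, a3, a4⟩ := hY p q j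
  obtain ⟨b1, b2, b3, b4⟩ := hZ p q j
  simp only [Matrix.add_apply, a1, a2, a3, a4, b1, b2, b3, b4]
  refine ⟨?_, ?_, ?_, ?_⟩ <;> ring

theorem anti_smul (c : ℂ) {Y : Matrix (Idx K) (Idx K) ℂ} (hY : Anti Y) : Anti (c • Y) := by
  intro p q j
  obtain ⟨a1, a2, a3, a4⟩ := hY p q j
  simp only [Matrix.smul_apply, smul_eq_mul, a1, a2, a3, a4]
  refine ⟨?_, ?_, ?_, ?_⟩ <;> ring

theorem anti_sum {ι : Type*} (s : Finset ι) (Y : ι → Matrix (Idx K) (Idx K) ℂ)
    (hY : ∀ i ∈ s, Anti (Y i)) : Anti (∑ i ∈ s, Y i) := by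
  classical
  induction s using Finset.induction_on with
  | empty => simp only [Finset.sum_empty]; exact anti_zero
  | insert i s hi ih =>
    rw [Finset.sum_insert hi]
    exact anti_add (hY i (Finset.mem_insert_self _ _))
      (ih fun j hj => hY j (Finset.mem_insert_of_mem hj))

/-- The kernel of the test functionals inside the antisymmetric matrices. -/
noncomputable def KK (K : ℕ) : Submodule ℂ (Matrix (Idx K) (Idx K) ℂ) where
  carrier := {Y | Anti Y ∧ ∀ w, FF Y w = 0}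
  zero_mem' := ⟨anti_zero, fun w => by simp [FF]⟩
  add_mem' := by
    rintro Y Z ⟨h1, h2⟩ ⟨h3, h4⟩
    exact ⟨anti_add h1 h3, fun w => by rw [FF_add, h2, h4, add_zero]⟩
  smul_mem' := by
    rintro c Y ⟨h1, h2⟩
    exact ⟨anti_smul c h1, fun w => by rw [FF_smul, h2, mul_zero]⟩

theorem KK_invariant {Y : Matrix (Idx K) (Idx K) ℂ} (hY : Y ∈ KK K) : PhiL K Y ∈ KK K := by
  refine ⟨anti_Phi Y hY.1, fun w => ?_⟩
  rw [PhiL_apply, FF_Phi]
  simp [hY.2]

/-- From a test functional identity to an eigenvector. -/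
theorem exists_eigenvector (lam : ℂ) (v : Matrix (Idx K) (Idx K) ℂ) (hv : Anti v)
    (hne : ∃ w, FF v w ≠ 0) (heq : ∀ w, FF (Phi K v) w = lam * FF v w) :
    ∃ Y : Matrix (Idx K) (Idx K) ℂ, Y ≠ 0 ∧ Anti Y ∧ Phi K Y = lam • Y := by
  have hu : PhiL K v - lam • v ∈ KK K := by
    refine ⟨?_, fun w => ?_⟩
    · rw [sub_eq_add_neg, ← neg_smul]
      exact anti_add (anti_Phi v hv) (anti_smul _ hv)
    · rw [sub_eq_add_neg, ← neg_smul, FF_add, FF_smul, PhiL_apply, heq]; ring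
  set T : Matrix (Idx K) (Idx K) ℂ →ₗ[ℂ] Matrix (Idx K) (Idx K) ℂ :=
    PhiL K - lam • LinearMap.id with hT
  have hTinv : ∀ Y ∈ KK K, T Y ∈ KK K := by
    intro Y hY
    have : T Y = PhiL K Y - lam • Y := rfl
    rw [this]
    exact (KK K).sub_mem (KK_invariant hY) ((KK K).smul_mem _ hY)
  by_cases hinj : Function.Injective (T.restrict hTinv)
  · have hsurj := LinearMap.injective_iff_surjective.1 hinj
    obtain ⟨k, hk⟩ := hsurj ⟨_, hu⟩
    have hk' : PhiL K (k : Matrix (Idx K) (Idx K) ℂ) - lam • (k : Matrix (Idx K) (Idx K) ℂ)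
        = PhiL K v - lam • v := congrArg Subtype.val hk
    refine ⟨v - k, ?_, ?_, ?_⟩
    · intro h0
      have : v = k := sub_eq_zero.1 h0
      obtain ⟨w, hw⟩ := hne
      apply hw
      rw [this]
      exact k.2.2 w
    · rw [sub_eq_add_neg, ← neg_one_smul ℂ]
      exact anti_add hv (anti_smul _ k.2.1)
    · have h1 : PhiL K (v - k) = lam • (v - k) := by
        rw [map_sub, smul_sub]
        have := hk'
        rw [sub_eq_sub_iff_add_eq_add] at this ⊢
        rw [← this, add_comm]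
      exact h1
  · rw [← LinearMap.ker_eq_bot, Submodule.eq_bot_iff] at hinj
    push Not at hinj
    obtain ⟨k, hk1, hk2⟩ := hinj
    refine ⟨k, fun h => hk2 (Subtype.ext h), k.2.1, ?_⟩
    have h1 : T k = 0 := congrArg Subtype.val (LinearMap.mem_ker.1 hk1)
    have h2 : PhiL K (k : Matrix (Idx K) (Idx K) ℂ) - lam • (k : Matrix (Idx K) (Idx K) ℂ) = 0 :=
      h1
    exact sub_eq_zero.1 h2

end Pool.Agent.X83.BF
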