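import Pool.Agent.X83.BF.Defs

open MeasureTheory Matrix
open scoped Kronecker BigOperators ComplexConjugate

namespace Pool.Agent.X83.BF

theorem vol_ne_zero : volume (Set.Ico (0 : ℝ) (2 * Real.pi)) ≠ 0 := by
  rw [Real.volume_Ico, sub_zero, Ne, ENNReal.ofReal_eq_zero, not_le]
  positivity

theorem vol_ne_top : volume (Set.Ico (0 : ℝ) (2 * Real.pi)) ≠ ⊤ := by
  rw [Real.volume_Ico]; exact ENNReal.ofReal_ne_top

instance : IsProbabilityMeasure unif :=
  ProbabilityTheory.cond_isProbabilityMeasure_of_finite vol_ne_zero vol_ne_top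

theorem integral_unif {E : Type*} [NormedAddCommGroup E] [NormedSpace ℝ E] (f : ℝ → E) :
    ∫ y, f y ∂unif = (2 * Real.pi)⁻¹ • ∫ y in (0 : ℝ)..(2 * Real.pi), f y := by
  have h2 : (0 : ℝ) ≤ 2 * Real.pi := by positivity
  rw [unif, ProbabilityTheory.cond, integral_smul_measure, Real.volume_Ico, sub_zero,
    ENNReal.toReal_inv, ENNReal.toReal_ofReal h2, intervalIntegral.integral_of_le h2,
    integral_Ico_eq_integral_Ioc]

theorem unif_cos : ∫ y, Real.cos (2 * y) ∂unif = 0 := by
  rw [integral_unif, intervalIntegral.integral_comp_mul_left (fun y => Real.cos y) two_ne_zero,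
    integral_cos]
  have : Real.sin (2 * (2 * Real.pi)) = 0 := by
    have := Real.sin_int_mul_pi 4
    rw [show 2 * (2 * Real.pi) = ((4 : ℤ) : ℝ) * Real.pi by push_cast; ring]
    exact this
  simp [this]

theorem unif_sin : ∫ y, Real.sin (2 * y) ∂unif = 0 := by
  rw [integral_unif, intervalIntegral.integral_comp_mul_left (fun y => Real.sin y) two_ne_zero,
    integral_sin]
  have : Real.cos (2 * (2 * Real.pi)) = 1 := by
    have := Real.cos_int_mul_two_pi 2
    rw [show 2 * (2 * Real.pi) = ((2 : ℤ) : ℝ) * (2 * Real.pi) by push_cast; ring]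
    exact this
  simp [this]

theorem unif_cos4 : ∫ y, Real.cos (4 * y) ∂unif = 0 := by
  rw [integral_unif, intervalIntegral.integral_comp_mul_left (fun y => Real.cos y)
    (by norm_num : (4 : ℝ) ≠ 0), integral_cos]
  have : Real.sin (4 * (2 * Real.pi)) = 0 := by
    have := Real.sin_int_mul_pi 8
    rw [show 4 * (2 * Real.pi) = ((8 : ℤ) : ℝ) * Real.pi by push_cast; ring]
    exact this
  simp [this]

theorem unif_sin4 : ∫ y, Real.sin (4 * y) ∂unif = 0 := by
  rw [integral_unif, intervalIntegral.integral_comp_mul_left (fun y => Real.sin y)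
    (by norm_num : (4 : ℝ) ≠ 0), integral_sin]
  have : Real.cos (4 * (2 * Real.pi)) = 1 := by
    have := Real.cos_int_mul_two_pi 4
    rw [show 4 * (2 * Real.pi) = ((4 : ℤ) : ℝ) * (2 * Real.pi) by push_cast; ring]
    exact this
  simp [this]

theorem unif_exp (c : ℂ) (hc : c = Complex.I ∨ c = -Complex.I) :
    ∫ y : ℝ, Complex.exp (c * y) ∂unif = 0 := by
  have hc0 : c ≠ 0 := by
    rcases hc with h | h <;> rw [h]
    · exact Complex.I_ne_zero
    · exact neg_ne_zero.2 Complex.I_ne_zero
  rw [integral_unif, integral_exp_mul_complex hc0]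
  have : Complex.exp (c * ((2 * Real.pi : ℝ) : ℂ)) = 1 := by
    rcases hc with h | h
    · rw [h, show Complex.I * ((2 * Real.pi : ℝ) : ℂ) = 2 * Real.pi * Complex.I by
        push_cast; ring]
      exact Complex.exp_two_pi_mul_I
    · rw [h, show -Complex.I * ((2 * Real.pi : ℝ) : ℂ) = -(2 * Real.pi * Complex.I) by
        push_cast; ring, Complex.exp_neg, Complex.exp_two_pi_mul_I, inv_one]
  rw [this]
  simp

/-- A measure carried by a compact set. -/
def Carried {X : Type*} [TopologicalSpace X] [MeasurableSpace X] (μ : Measure X) : Prop :=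
  ∃ C : Set X, IsCompact C ∧ ∀ᵐ x ∂μ, x ∈ C

theorem carried_unif : Carried unif := by
  refine ⟨Set.Icc 0 (2 * Real.pi), isCompact_Icc, ?_⟩
  have : ∀ᵐ x ∂unif, x ∈ Set.Ico (0 : ℝ) (2 * Real.pi) := by
    rw [unif, ProbabilityTheory.cond]
    apply Measure.ae_smul_measure
    exact ae_restrict_mem measurableSet_Ico
  exact this.mono fun x hx => ⟨hx.1, hx.2.le⟩

theorem Carried.prod {X Y : Type*} [TopologicalSpace X] [MeasurableSpace X] [TopologicalSpace Y]
    [MeasurableSpace Y] {μ : Measure X} {ν : Measure Y} [IsProbabilityMeasure μ]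
    [IsProbabilityMeasure ν] (h1 : Carried μ) (h2 : Carried ν) : Carried (μ.prod ν) := by
  obtain ⟨C, hC, hC'⟩ := h1
  obtain ⟨D, hD, hD'⟩ := h2
  refine ⟨C ×ˢ D, hC.prod hD, ?_⟩
  have e1 : ∀ᵐ z ∂(μ.prod ν), z.1 ∈ C := Measure.quasiMeasurePreserving_fst.ae hC'
  have e2 : ∀ᵐ z ∂(μ.prod ν), z.2 ∈ D := Measure.quasiMeasurePreserving_snd.ae hD'
  filter_upwards [e1, e2] with z h1 h2 using ⟨h1, h2⟩

theorem Carried.pi {ι X : Type*} [Fintype ι] [TopologicalSpace X] [MeasurableSpace X]
    {μ : Measure X} [IsProbabilityMeasure μ] (h1 : Carried μ) :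
    Carried (Measure.pi fun _ : ι => μ) := by
  obtain ⟨C, hC, hC'⟩ := h1
  refine ⟨Set.univ.pi fun _ => C, isCompact_univ_pi fun _ => hC, ?_⟩
  have : ∀ i : ι, ∀ᵐ x ∂(Measure.pi fun _ : ι => μ), x i ∈ C := by
    intro i
    exact (measurePreserving_eval (fun _ : ι => μ) i).quasiMeasurePreserving.ae hC'
  filter_upwards [ae_all_iff.2 this] with x hx i _ using hx i

theorem Carried.integrable {X E : Type*} [TopologicalSpace X] [MeasurableSpace X]
    [OpensMeasurableSpace X] [NormedAddCommGroup E] [SecondCountableTopologyEither X E]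
    {μ : Measure X} [IsProbabilityMeasure μ]
    (h : Carried μ) {f : X → E} (hf : Continuous f) : Integrable f μ := by
  obtain ⟨C, hC, hC'⟩ := h
  obtain ⟨M, hM⟩ := hC.exists_bound_of_continuousOn hf.continuousOn
  refine Integrable.of_bound hf.aestronglyMeasurable M ?_
  filter_upwards [hC'] with x hx using hM x hx

/-- The angles of one layer. -/
noncomputable def lay (K : ℕ) : Measure (Mode K → ℝ × ℝ) :=
  Measure.pi fun _ : Mode K => unif.prod unif

instance (K : ℕ) : IsProbabilityMeasure (lay K) := by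
  unfold lay; infer_instance

theorem angles_eq (K : ℕ) : angles K = Measure.pi fun _ : Fin K => lay K := rfl

instance (K : ℕ) : IsProbabilityMeasure (angles K) := by
  unfold angles; infer_instance

theorem carried_pair : Carried (unif.prod unif) := carried_unif.prod carried_unif

theorem carried_lay (K : ℕ) : Carried (lay K) := carried_pair.pi

theorem carried_angles (K : ℕ) : Carried (angles K) := (carried_lay K).pi

end Pool.Agent.X83.BF
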