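import Mathlib

namespace Pool.Agent.X83.BF

/-- The root. -/
theorem exists_mu (K : ℕ) (hK : 5 ≤ K) :
    ∃ μ : ℝ, 0 < μ ∧ μ ≤ 3 / (2 * K) ∧ μ * ((3 - μ) / 2) ^ K = 1 := by
  have hK0 : (0 : ℝ) < K := by positivity
  set b : ℝ := 3 / (2 * K) with hb
  have hb0 : 0 < b := by positivity
  have hcont : ContinuousOn (fun μ : ℝ => μ * ((3 - μ) / 2) ^ K) (Set.Icc 0 b) := by
    fun_prop
  have hpow : (4 : ℝ) * K / 3 ≤ (3 / 2 : ℝ) ^ K := by
    induction K, hK using Nat.le_induction with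
    | base => norm_num
    | succ n hn ih =>
      have hn0 : (0 : ℝ) < n := by positivity
      have := ih hn0 rfl (by positivity) (by fun_prop)
      have hn5 : (5 : ℝ) ≤ n := by exact_mod_cast hn
      rw [pow_succ]
      push_cast
      linarith
  have hge : 1 ≤ b * ((3 - b) / 2) ^ K := by
    have h1 : ((3 - b) / 2) ^ K = (3 / 2 : ℝ) ^ K * (1 - b / 3) ^ K := by
      rw [← mul_pow]; congr 1; ring
    have hb3 : b / 3 ≤ 1 := by
      rw [hb]
      have hK5 : (5 : ℝ) ≤ K := by exact_mod_cast hK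
      rw [div_div, div_le_one (by positivity)]
      linarith
    have h2 : 1 + (K : ℝ) * (-(b / 3)) ≤ (1 + -(b / 3)) ^ K :=
      one_add_mul_le_pow (by linarith) K
    have h3 : (K : ℝ) * (b / 3) = 1 / 2 := by
      rw [hb]; field_simp
    have h4 : (1 / 2 : ℝ) ≤ (1 - b / 3) ^ K := by
      have : (1 - b / 3) = 1 + -(b / 3) := by ring
      rw [this]; linarith
    rw [h1]
    have h5 : (2 * K / 3 : ℝ) ≤ (3 / 2 : ℝ) ^ K * (1 - b / 3) ^ K := by
      calc (2 * K / 3 : ℝ) = (4 * K / 3) * (1 / 2) := by ring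
        _ ≤ _ := by
          apply mul_le_mul hpow h4 (by norm_num) (by positivity)
    calc (1 : ℝ) = b * (2 * K / 3) := by rw [hb]; field_simp
      _ ≤ _ := by
        apply mul_le_mul_of_nonneg_left h5 hb0.le
  have hivt := intermediate_value_Icc hb0.le hcont
  have hmem : (1 : ℝ) ∈ Set.Icc ((fun μ : ℝ => μ * ((3 - μ) / 2) ^ K) 0)
      ((fun μ : ℝ => μ * ((3 - μ) / 2) ^ K) b) := by
    refine ⟨?_, hge⟩
    simp
  obtain ⟨μ, hμ, h1⟩ := hivt hmem
  refine ⟨μ, ?_, hμ.2, h1⟩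
  rcases lt_or_eq_of_le hμ.1 with h | h
  · exact h
  · exfalso
    rw [← h] at h1
    simp at h1

/-- The bound for `λ = ((3 - μ) / 4) ^ K`. -/
theorem lam_lower (K : ℕ) (hK : 5 ≤ K) (μ : ℝ) (h0 : 0 < μ) (h1 : μ ≤ 3 / (2 * K)) :
    1 / 2 * (3 / 4 : ℝ) ^ K ≤ ((3 - μ) / 4) ^ K := by
  have hK0 : (0 : ℝ) < K := by positivity
  have h2 : (K : ℝ) * (μ / 3) ≤ 1 / 2 := by
    calc (K : ℝ) * (μ / 3) ≤ K * ((3 / (2 * K)) / 3) := by gcongr
      _ = 1 / 2 := by field_simp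
  have hK5 : (5 : ℝ) ≤ K := by exact_mod_cast hK
  have h3 : μ / 3 ≤ 1 := by nlinarith
  have h4 : 1 + (K : ℝ) * (-(μ / 3)) ≤ (1 + -(μ / 3)) ^ K :=
      one_add_mul_le_pow (by linarith) K
  have h5 : ((3 - μ) / 4) ^ K = (1 + -(μ / 3)) ^ K * (3 / 4 : ℝ) ^ K := by
    rw [← mul_pow]; congr 1; ring
  rw [h5]
  apply mul_le_mul_of_nonneg_right _ (by positivity)
  linarith

/-- Partial geometric sums. -/
theorem geom_lt (K : ℕ) (r : ℝ) : (∑ j : Fin K, r ^ (j : ℕ)) * (r - 1) = r ^ K - 1 := by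
  rw [Fin.sum_univ_eq_sum_range (fun j => r ^ j) K]
  exact geom_sum_mul r K

/-- The identity for the weights. -/
theorem weights (K : ℕ) (r ν : ℝ) (hr : r ≠ 1) (hν : r ^ K = ν) (h2 : ν - 1 = 2 * ν * (r - 1))
    (m : ℕ) (hm : m ≤ K) :
    ∑ j : Fin K, (r ^ (j : ℕ) * if (j : ℕ) < m then ν else 1) = 2 * ν * r ^ m := by
  have hr1 : r - 1 ≠ 0 := sub_ne_zero.2 hr
  have h3 : ∑ j : Fin K, (r ^ (j : ℕ) * if (j : ℕ) < m then ν else 1)
      = ∑ j : Fin K, r ^ (j : ℕ) + (ν - 1) * ∑ j ∈ Finset.range m, r ^ j := by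
    rw [Fin.sum_univ_eq_sum_range (fun j => r ^ j * if j < m then ν else 1) K,
      Fin.sum_univ_eq_sum_range (fun j => r ^ j) K]
    have : Finset.range m ⊆ Finset.range K := Finset.range_subset_range.2 hm
    rw [← Finset.sum_sdiff this, ← Finset.sum_sdiff this (f := fun j => r ^ j), add_assoc,
      Finset.mul_sum, ← Finset.sum_add_distrib]
    congr 1
    · apply Finset.sum_congr rfl
      intro j hj
      rw [Finset.mem_sdiff, Finset.mem_range, Finset.mem_range] at hj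
      rw [if_neg hj.2, mul_one]
    · apply Finset.sum_congr rfl
      intro j hj
      rw [Finset.mem_range] at hj
      rw [if_pos hj]
      ring
  have h4 := geom_lt K r
  have h5 := geom_sum_mul r m
  have h6 : (∑ j : Fin K, (r ^ (j : ℕ) * if (j : ℕ) < m then ν else 1)) * (r - 1)
      = 2 * ν * r ^ m * (r - 1) := by
    rw [h3, add_mul, h4, mul_assoc, h5, hν]
    linear_combination r ^ m * h2
  exact mul_right_cancel₀ hr1 h6

end Pool.Agent.X83.BF
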