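import Pool.Agent.X83.BF.Avg
import Pool.Agent.X83.BF.Root

open MeasureTheory Matrix
open scoped Kronecker BigOperators ComplexConjugate

namespace Pool.Agent.X83.BF

variable {K : ℕ}

/-- Ordered product of the matrices `L i (ω i)`, the last one on the left. -/
noncomputable def Wl (m : ℕ) (L : Fin m → (Mode K → ℝ × ℝ) → Matrix (Mode K) (Mode K) ℂ)
    (ω : Fin m → Mode K → ℝ × ℝ) : Matrix (Mode K) (Mode K) ℂ :=
  ((List.ofFn fun i => L i (ω i)).reverse).prod

theorem Wl_zero (L : Fin 0 → (Mode K → ℝ × ℝ) → Matrix (Mode K) (Mode K) ℂ)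
    (ω : Fin 0 → Mode K → ℝ × ℝ) : Wl 0 L ω = 1 := by
  simp [Wl]

theorem Wl_succ (m : ℕ) (L : Fin (m + 1) → (Mode K → ℝ × ℝ) → Matrix (Mode K) (Mode K) ℂ)
    (ω : Fin (m + 1) → Mode K → ℝ × ℝ) :
    Wl (m + 1) L ω = L (Fin.last m) (ω (Fin.last m)) *
      Wl m (fun i => L i.castSucc) (fun i => ω i.castSucc) := by
  unfold Wl
  rw [List.ofFn_succ', List.concat_eq_append, List.reverse_append, List.reverse_singleton,
    List.singleton_append, List.prod_cons]

theorem continuous_Wl (m : ℕ) (L : Fin m → (Mode K → ℝ × ℝ) → Matrix (Mode K) (Mode K) ℂ)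
    (hL : ∀ i, Continuous (L i)) : Continuous (Wl m L) := by
  induction m with
  | zero =>
    have : Wl 0 L = fun _ => 1 := by funext ω; exact Wl_zero L ω
    rw [this]; exact continuous_const
  | succ m ih =>
    have : Wl (m + 1) L = fun ω => L (Fin.last m) (ω (Fin.last m)) *
      Wl m (fun i => L i.castSucc) (fun i => ω i.castSucc) := by
      funext ω; exact Wl_succ m L ω
    rw [this]
    have h1 : Continuous fun ω : Fin (m + 1) → Mode K → ℝ × ℝ =>
        L (Fin.last m) (ω (Fin.last m)) := (hL _).comp (continuous_apply _)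
    have h2 : Continuous fun ω : Fin (m + 1) → Mode K → ℝ × ℝ =>
        (fun i : Fin m => ω i.castSucc) := continuous_pi fun i => continuous_apply _
    exact h1.matrix_mul ((ih (fun i => L i.castSucc) (fun i => hL _)).comp h2)

theorem fubini (m : ℕ) (L : Fin m → (Mode K → ℝ × ℝ) → Matrix (Mode K) (Mode K) ℂ)
    (hL : ∀ i, Continuous (L i)) (f : ℕ → (Mode K → ℂ) → ℝ) (hf : ∀ i, Continuous (f i))
    (hstep : ∀ (i : Fin m) (v : Mode K → ℂ),
      ∫ x, f i ((L i x)ᴴ *ᵥ v) ∂(lay K) = f (i + 1) v) (v : Mode K → ℂ) :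
    ∫ ω, f 0 ((Wl m L ω)ᴴ *ᵥ v) ∂(Measure.pi fun _ : Fin m => lay K) = f m v := by
  induction m generalizing v with
  | zero =>
    simp only [Wl_zero, conjTranspose_one, one_mulVec]
    simp
  | succ m ih =>
    set L' : Fin m → (Mode K → ℝ × ℝ) → Matrix (Mode K) (Mode K) ℂ := fun i => L i.castSucc
      with hL'
    have hcL' : ∀ i, Continuous (L' i) := fun i => hL _
    have ih' : ∀ v : Mode K → ℂ,
        ∫ ω, f 0 ((Wl m L' ω)ᴴ *ᵥ v) ∂(Measure.pi fun _ : Fin m => lay K) = f m v := by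
      intro v
      exact ih L' hcL' (fun i v => hstep i.castSucc v) v
    set G : (Mode K → ℝ × ℝ) × (Fin m → Mode K → ℝ × ℝ) → ℝ := fun z =>
      f 0 ((Wl m L' z.2)ᴴ *ᵥ ((L (Fin.last m) z.1)ᴴ *ᵥ v)) with hG
    have hGc : Continuous G := by
      have h1 : Continuous fun z : (Mode K → ℝ × ℝ) × (Fin m → Mode K → ℝ × ℝ) =>
          (Wl m L' z.2)ᴴ :=
        ((continuous_Wl m L' hcL').comp continuous_snd).matrix_conjTranspose
      have h2 : Continuous fun z : (Mode K → ℝ × ℝ) × (Fin m → Mode K → ℝ × ℝ) =>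
          (L (Fin.last m) z.1)ᴴ *ᵥ v :=
        ((hL (Fin.last m)).comp continuous_fst).matrix_conjTranspose.matrix_mulVec
          continuous_const
      exact (hf 0).comp (h1.matrix_mulVec h2)
    have hmp := measurePreserving_piFinSuccAbove
      (fun _ : Fin (m + 1) => lay K) (Fin.last m)
    have h3 := hmp.integral_comp' (g := G)
    have h4 : ∀ ω : Fin (m + 1) → Mode K → ℝ × ℝ,
        G (MeasurableEquiv.piFinSuccAbove (fun _ => Mode K → ℝ × ℝ) (Fin.last m) ω)
          = f 0 ((Wl (m + 1) L ω)ᴴ *ᵥ v) := by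
      intro ω
      rw [Wl_succ, conjTranspose_mul, ← mulVec_mulVec]
      have h6 : (Fin.last m).removeNth ω = fun i : Fin m => ω i.castSucc := by
        funext i
        simp only [Fin.removeNth, Fin.succAbove_last]
      simp only [hG, hL', MeasurableEquiv.piFinSuccAbove_apply, Fin.insertNthEquiv_symm_apply]
      rw [h6]
    simp_rw [h4] at h3
    rw [h3]
    have hint : Integrable G ((lay K).prod (Measure.pi fun _ : Fin m => lay K)) :=
      ((carried_lay K).prod (carried_lay K).pi).integrable hGc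
    rw [integral_prod G hint]
    have h5 : ∀ x : Mode K → ℝ × ℝ, ∫ y, G (x, y) ∂(Measure.pi fun _ : Fin m => lay K)
        = f m ((L (Fin.last m) x)ᴴ *ᵥ v) := by
      intro x
      have h7 : ∀ y, G (x, y) = f 0 ((Wl m L' y)ᴴ *ᵥ ((L (Fin.last m) x)ᴴ *ᵥ v)) := fun y => rfl
      simp_rw [h7]
      exact ih' _
    simp_rw [h5]
    have := hstep (Fin.last m) v
    simpa using this

/-- The sets of digits of the recursion. -/
def SS (K m : ℕ) (j : Fin K) : Finset (Fin K) :=
  Finset.univ.filter fun i => if (j : ℕ) < m then (i : ℕ) ≤ j ∨ m ≤ (i : ℕ)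
    else m ≤ (i : ℕ) ∧ (i : ℕ) ≤ j

/-- The weights. -/
noncomputable def gg (r ν : ℝ) (m j : ℕ) : ℝ := (1 / 2) ^ m * (r ^ j * if j < m then ν else 1)

/-- The interference term. -/
noncomputable def kh (r ν : ℝ) : ℕ → (Mode K → ℂ) → ℝ
  | 0, _ => 0
  | m + 1, v => if h : m < K then (1 / 2) ^ (m + 1) * (r ^ m * ν) * HH ⟨m, h⟩ v else 0

/-- The stage functions. -/
noncomputable def ff (c r ν : ℝ) (m : ℕ) (v : Mode K → ℂ) : ℝ :=
  (c + 1 / 2 * ∑ i ∈ Finset.range m, (r / 2) ^ i) * QQ ∅ v
    + ∑ j : Fin K, gg r ν m j * QQ (SS K m j) v + kh r ν m v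

theorem continuous_kh (r ν : ℝ) (m : ℕ) : Continuous (kh (K := K) r ν m) := by
  cases m with
  | zero => exact continuous_const
  | succ m =>
    unfold kh
    by_cases h : m < K
    · simp only [dif_pos h]
      exact continuous_const.mul (continuous_HH _)
    · simp only [dif_neg h]
      exact continuous_const

theorem continuous_ff (c r ν : ℝ) (m : ℕ) : Continuous (ff (K := K) c r ν m) := by
  unfold ff
  refine ((continuous_const.mul (continuous_QQ _)).add ?_).add (continuous_kh r ν m)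
  exact continuous_finsetSum _ fun j _ => continuous_const.mul (continuous_QQ _)

theorem mem_SS (m j : Fin K) : m ∈ SS K m j := by
  unfold SS
  rw [Finset.mem_filter]
  refine ⟨Finset.mem_univ _, ?_⟩
  split_ifs with h
  · right; exact le_refl _
  · exact ⟨le_refl _, not_lt.1 h⟩

theorem SS_erase_ne (m j : Fin K) (h : j ≠ m) : (SS K m j).erase m = SS K (m + 1) j := by
  have hne : (j : ℕ) ≠ m := fun h' => h (Fin.ext h')
  ext i
  simp only [SS, Finset.mem_erase, Finset.mem_filter, Finset.mem_univ, true_and]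
  have hi : i ≠ m ↔ (i : ℕ) ≠ m := by
    rw [Ne, Fin.ext_iff]
  rw [hi]
  by_cases h1 : (j : ℕ) < m
  · rw [if_pos h1, if_pos (by omega)]; omega
  · rw [if_neg h1, if_neg (by omega)]; omega

theorem SS_erase_self (m : Fin K) : (SS K m m).erase m = ∅ := by
  ext i
  simp only [SS, Finset.mem_erase, Finset.mem_filter, Finset.mem_univ, true_and]
  have hi : i ≠ m ↔ (i : ℕ) ≠ m := by
    rw [Ne, Fin.ext_iff]
  rw [hi, if_neg (lt_irrefl _)]
  constructor
  · intro h; omega
  · intro h; exact absurd h (Finset.notMem_empty i)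

theorem SS_self (m : Fin K) : SS K (m + 1) m = Finset.univ := by
  ext i
  simp only [SS, Finset.mem_filter, Finset.mem_univ, true_and, iff_true]
  rw [if_pos (Nat.lt_succ_self _)]
  omega

theorem gg_step (r ν : ℝ) (m j : ℕ) (h : j ≠ m) : 1 / 2 * gg r ν m j = gg r ν (m + 1) j := by
  unfold gg
  by_cases h1 : j < m
  · rw [if_pos h1, if_pos (by omega), pow_succ]; ring
  · rw [if_neg h1, if_neg (by omega), pow_succ]; ring

theorem gg_self (r ν : ℝ) (m : ℕ) : gg r ν (m + 1) m = (1 / 2) ^ (m + 1) * (r ^ m * ν) := by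
  unfold gg; rw [if_pos (Nat.lt_succ_self _)]

/-- One layer on the stage functions. -/
theorem step_ff (c r ν : ℝ) (hr : r ≠ 1) (hν : r ^ K = ν) (h2 : ν - 1 = 2 * ν * (r - 1))
    (m : Fin K) (v : Mode K → ℂ) :
    ∫ x, ff c r ν m ((layer m x)ᴴ *ᵥ v) ∂(lay K) = ff c r ν (m + 1) v := by
  have hcQ : ∀ A : Finset (Fin K), Integrable (fun x => QQ A ((layer m x)ᴴ *ᵥ v)) (lay K) :=
    fun A => (carried_lay K).integrable ((continuous_QQ A).comp (cont_layer_v m v))
  have hck : Integrable (fun x => kh r ν m ((layer m x)ᴴ *ᵥ v)) (lay K) :=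
    (carried_lay K).integrable ((continuous_kh r ν m).comp (cont_layer_v m v))
  have hkh : ∫ x, kh r ν m ((layer m x)ᴴ *ᵥ v) ∂(lay K) = 0 := by
    rcases m with ⟨m, hm⟩
    cases m with
    | zero => simp [kh]
    | succ m =>
      have hm' : m < K := by omega
      simp only [kh, dif_pos hm']
      rw [integral_const_mul, avg_HH, mul_zero]
      intro h
      have := congrArg Fin.val h
      simp at this
  have hsum : ∑ j : Fin K, gg r ν m j = (1 / 2) ^ (m : ℕ) * (2 * ν * r ^ (m : ℕ)) := by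
    have := weights K r ν hr hν h2 m m.2.le
    rw [← this, Finset.mul_sum]
    rfl
  have hIs : Integrable (fun x => ∑ j : Fin K, gg r ν m j *
      QQ (SS K m j) ((layer m x)ᴴ *ᵥ v)) (lay K) :=
    integrable_finsetSum _ fun j _ => (hcQ _).const_mul _
  have hIc : Integrable (fun x => (c + 1 / 2 * ∑ i ∈ Finset.range m, (r / 2) ^ i) *
      QQ ∅ ((layer m x)ᴴ *ᵥ v)) (lay K) := (hcQ _).const_mul _
  have e1 : ∫ x, ff c r ν m ((layer m x)ᴴ *ᵥ v) ∂(lay K)
      = (c + 1 / 2 * ∑ i ∈ Finset.range m, (r / 2) ^ i) * QQ ∅ v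
        + ∑ j : Fin K, gg r ν m j * (1 / 2 * QQ ((SS K m j).erase m) v
          + 1 / 4 * QQ Finset.univ v + 1 / 4 * HH m v) := by
    unfold ff
    rw [integral_add (by exact hIc.add hIs) hck, integral_add hIc hIs, hkh, add_zero,
      integral_const_mul, avg_QQ_empty, integral_finsetSum _ (fun j _ => (hcQ _).const_mul _)]
    congr 1
    apply Finset.sum_congr rfl
    intro j _
    rw [integral_const_mul, avg_QQ m _ (mem_SS m j)]
  rw [e1]
  have e2 : ∀ j : Fin K, gg r ν m j * (1 / 2 * QQ ((SS K m j).erase m) v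
          + 1 / 4 * QQ Finset.univ v + 1 / 4 * HH m v)
      = gg r ν (m + 1) j * QQ (SS K (m + 1) j) v
        + (if m = j then (1 / 2 * gg r ν m m * QQ ∅ v - gg r ν (m + 1) m * QQ Finset.univ v)
          else 0)
        + gg r ν m j * (1 / 4 * QQ Finset.univ v + 1 / 4 * HH m v) := by
    intro j
    by_cases hj : m = j
    · rw [if_pos hj, ← hj, SS_erase_self, SS_self]
      ring
    · rw [if_neg hj, SS_erase_ne m j (Ne.symm hj)]
      have := gg_step r ν m j (fun h => hj (Fin.ext h.symm))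
      rw [← this]
      ring
  rw [Finset.sum_congr rfl fun j _ => e2 j, Finset.sum_add_distrib, Finset.sum_add_distrib,
    Finset.sum_ite_eq, if_pos (Finset.mem_univ _), ← Finset.sum_mul, hsum]
  have e3 : kh r ν ((m : ℕ) + 1) v = (1 / 2) ^ ((m : ℕ) + 1) * (r ^ (m : ℕ) * ν) * HH m v := by
    simp only [kh, dif_pos m.2]
  have e4 : gg r ν m m = (1 / 2) ^ (m : ℕ) * r ^ (m : ℕ) := by
    unfold gg; rw [if_neg (lt_irrefl _), mul_one]
  have e5 : (r / 2) ^ (m : ℕ) = (1 / 2) ^ (m : ℕ) * r ^ (m : ℕ) := by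
    rw [← mul_pow]; congr 1; ring
  unfold ff
  rw [e3, Finset.sum_range_succ, gg_self, e4, e5, pow_succ (1 / 2 : ℝ) (m : ℕ)]
  ring

/-- The last stage function. -/
theorem ff_last (c r ν : ℝ) (hν : r ^ K = ν) (hc : c * (2 - r) = -1) (v : Mode K → ℂ) :
    ff c r ν K v = (r / 2) ^ K * ff c r ν 0 v + kh r ν K v := by
  have hr2 : r / 2 - 1 ≠ 0 := by
    intro h
    have : 2 - r = 0 := by linarith
    rw [this] at hc
    norm_num at hc
  have h1 : c + 1 / 2 * ∑ i ∈ Finset.range K, (r / 2) ^ i = (r / 2) ^ K * c := by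
    have h2 := geom_sum_mul (r / 2) K
    apply mul_right_cancel₀ hr2
    have h3 : (c + 1 / 2 * ∑ i ∈ Finset.range K, (r / 2) ^ i) * (r / 2 - 1)
        = c * (r / 2 - 1) + 1 / 2 * ((r / 2) ^ K - 1) := by
      rw [add_mul, mul_assoc, h2]
    rw [h3]
    linear_combination (-1 / 2 + (r / 2) ^ K / 2) * hc
  have h5 : (r / 2) ^ K = (1 / 2) ^ K * ν := by
    rw [← hν, ← mul_pow]; congr 1; ring
  have h6 : ∀ j : Fin K, SS K K j = SS K 0 j := by
    intro j
    ext i
    simp only [SS, Finset.mem_filter, Finset.mem_univ, true_and]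
    rw [if_pos j.2, if_neg (Nat.not_lt_zero _)]
    omega
  have h7 : ∀ j : Fin K, gg r ν K j = (r / 2) ^ K * gg r ν 0 j := by
    intro j
    unfold gg
    rw [if_pos j.2, if_neg (Nat.not_lt_zero _), h5]
    ring
  unfold ff
  rw [h1]
  simp_rw [h6, h7]
  have h8 : kh r ν 0 v = 0 := rfl
  rw [h8, Finset.range_zero, Finset.sum_empty]
  have h9 : ∑ j : Fin K, (r / 2) ^ K * gg r ν 0 j * QQ (SS K 0 j) v
      = (r / 2) ^ K * ∑ j : Fin K, gg r ν 0 j * QQ (SS K 0 j) v := by
    rw [Finset.mul_sum]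
    exact Finset.sum_congr rfl fun j _ => by ring
  rw [h9]
  ring

theorem butterfly_eq (ω : Fin K → Mode K → ℝ × ℝ) :
    butterfly ω = Wl K (fun ℓ x => layer ℓ x) ω := rfl

theorem continuous_butterfly : Continuous (butterfly (K := K)) :=
  continuous_Wl K (fun ℓ x => layer ℓ x) continuous_layer

/-- The butterfly average of the first stage function. -/
theorem avg_ff (c r ν : ℝ) (hr : r ≠ 1) (hν : r ^ K = ν) (h2 : ν - 1 = 2 * ν * (r - 1))
    (hc : c * (2 - r) = -1) (v : Mode K → ℂ) :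
    ∫ ω, ff c r ν 0 ((butterfly ω)ᴴ *ᵥ v) ∂(angles K)
      = (r / 2) ^ K * ff c r ν 0 v + kh r ν K v := by
  rw [← ff_last c r ν hν hc v]
  exact fubini K (fun ℓ x => layer ℓ x) continuous_layer (fun m => ff c r ν m)
    (fun m => continuous_ff c r ν m) (fun i v => step_ff c r ν hr hν h2 i v) v

/-- The butterfly average of the interference term. -/
theorem avg_kh (r ν : ℝ) (hK : 2 ≤ K) (v : Mode K → ℂ) :
    ∫ ω, kh r ν K ((butterfly ω)ᴴ *ᵥ v) ∂(angles K) = 0 := by
  set f : ℕ → (Mode K → ℂ) → ℝ := fun m => if m = 0 then kh r ν K else fun _ => 0 with hf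
  have h := fubini K (fun ℓ x => layer ℓ x) continuous_layer f
    (by
      intro m
      simp only [hf]
      split_ifs
      · exact continuous_kh r ν K
      · exact continuous_const)
    (by
      intro i v
      simp only [hf]
      rw [if_neg (Nat.succ_ne_zero _)]
      split_ifs with h0
      · obtain ⟨k, hk⟩ : ∃ k, K = k + 1 := ⟨K - 1, by omega⟩
        have hkK : k < K := by omega
        have : ∀ w : Mode K → ℂ, kh r ν K w
            = (1 / 2) ^ (k + 1) * (r ^ k * ν) * HH ⟨k, hkK⟩ w := by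
          intro w
          have h3 : kh (K := K) r ν K w = kh r ν (k + 1) w := by rw [← hk]
          rw [h3]
          simp only [kh, dif_pos hkK]
        simp_rw [this]
        rw [integral_const_mul, avg_HH, mul_zero]
        intro h
        have := congrArg Fin.val h
        simp at this
        omega
      · simp) v
  simp only [hf, if_true] at h
  rw [if_neg (by omega)] at h
  exact h

end Pool.Agent.X83.BF
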