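import Pool.Agent.X83.BF.Level

open MeasureTheory Matrix
open scoped Kronecker BigOperators ComplexConjugate

namespace Pool.Agent.X83.BF

variable {K : ℕ}

/-- The compression of `R ⊗ 1 + 1 ⊗ R` to the antisymmetric tensors (twice it). -/
noncomputable def wd (R : Matrix (Mode K) (Mode K) ℂ) :
    Matrix (Mode K × Mode K) (Mode K × Mode K) ℂ :=
  Matrix.of fun p q => R p.1 q.1 * (1 : Matrix (Mode K) (Mode K) ℂ) p.2 q.2
    - R p.1 q.2 * (1 : Matrix (Mode K) (Mode K) ℂ) p.2 q.1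
    - R p.2 q.1 * (1 : Matrix (Mode K) (Mode K) ℂ) p.1 q.2
    + R p.2 q.2 * (1 : Matrix (Mode K) (Mode K) ℂ) p.1 q.1

theorem wd_left (R : Matrix (Mode K) (Mode K) ℂ) (p q : Mode K × Mode K) :
    wd R p.swap q = - wd R p q := by
  rcases p with ⟨a, b⟩
  rcases q with ⟨c, d⟩
  simp only [wd, Matrix.of_apply, Prod.swap_prod_mk]
  ring

theorem wd_right (R : Matrix (Mode K) (Mode K) ℂ) (p q : Mode K × Mode K) :
    wd R p q.swap = - wd R p q := by
  rcases p with ⟨a, b⟩
  rcases q with ⟨c, d⟩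
  simp only [wd, Matrix.of_apply, Prod.swap_prod_mk]
  ring

theorem trace_wd (R P : Matrix (Mode K) (Mode K) ℂ) :
    (wd R * (P ⊗ₖ (1 : Matrix (Mode K) (Mode K) ℂ))).trace
      = ((2 : ℂ) ^ K - 2) * (R * P).trace + R.trace * P.trace := by
  have hcard : (Fintype.card (Mode K) : ℂ) = (2 : ℂ) ^ K := by simp
  have h1 : (wd R * (P ⊗ₖ (1 : Matrix (Mode K) (Mode K) ℂ))).trace
      = ∑ a, ∑ b, ∑ a', wd R (a, b) (a', b) * P a' a := by
    simp only [Matrix.trace, Matrix.diag_apply, Matrix.mul_apply, Fintype.sum_prod_type,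
      kronecker_apply]
    refine Finset.sum_congr rfl fun a _ => Finset.sum_congr rfl fun b _ =>
      Finset.sum_congr rfl fun a' _ => ?_
    rw [Finset.sum_eq_single b]
    · rw [Matrix.one_apply_eq, mul_one]
    · intro b' _ hb'
      rw [Matrix.one_apply_ne hb', mul_zero, mul_zero]
    · intro h; exact absurd (Finset.mem_univ _) h
  rw [h1]
  have h2 : ∀ a b a' : Mode K, wd R (a, b) (a', b) * P a' a
      = R a a' * P a' a - R a b * (1 : Matrix (Mode K) (Mode K) ℂ) b a' * P a' a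
        - R b a' * (1 : Matrix (Mode K) (Mode K) ℂ) a b * P a' a
        + R b b * (1 : Matrix (Mode K) (Mode K) ℂ) a a' * P a' a := by
    intro a b a'
    simp only [wd, Matrix.of_apply, Matrix.one_apply_eq]
    ring
  simp_rw [h2, Finset.sum_add_distrib, Finset.sum_sub_distrib]
  have e1 : ∑ a : Mode K, ∑ _b : Mode K, ∑ a' : Mode K, R a a' * P a' a
      = (2 : ℂ) ^ K * (R * P).trace := by
    simp only [Matrix.trace, Matrix.diag_apply, Matrix.mul_apply, Finset.sum_const,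
      Finset.card_univ, nsmul_eq_mul, hcard, ← Finset.mul_sum]
  have e2 : ∑ a : Mode K, ∑ b : Mode K, ∑ a' : Mode K,
      R a b * (1 : Matrix (Mode K) (Mode K) ℂ) b a' * P a' a = (R * P).trace := by
    simp only [Matrix.trace, Matrix.diag_apply, Matrix.mul_apply]
    refine Finset.sum_congr rfl fun a _ => Finset.sum_congr rfl fun b _ => ?_
    rw [Finset.sum_eq_single b]
    · rw [Matrix.one_apply_eq, mul_one]
    · intro b' _ hb'
      rw [Matrix.one_apply_ne hb'.symm, mul_zero, zero_mul]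
    · intro h; exact absurd (Finset.mem_univ _) h
  have e3 : ∑ a : Mode K, ∑ b : Mode K, ∑ a' : Mode K,
      R b a' * (1 : Matrix (Mode K) (Mode K) ℂ) a b * P a' a = (R * P).trace := by
    simp only [Matrix.trace, Matrix.diag_apply, Matrix.mul_apply]
    refine Finset.sum_congr rfl fun a _ => ?_
    rw [Finset.sum_eq_single a]
    · refine Finset.sum_congr rfl fun a' _ => ?_
      rw [Matrix.one_apply_eq, mul_one]
    · intro b _ hb
      apply Finset.sum_eq_zero
      intro a' _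
      rw [Matrix.one_apply_ne hb.symm, mul_zero, zero_mul]
    · intro h; exact absurd (Finset.mem_univ _) h
  have e4 : ∑ a : Mode K, ∑ b : Mode K, ∑ a' : Mode K,
      R b b * (1 : Matrix (Mode K) (Mode K) ℂ) a a' * P a' a = R.trace * P.trace := by
    simp only [Matrix.trace, Matrix.diag_apply]
    rw [Finset.sum_mul_sum, Finset.sum_comm]
    refine Finset.sum_congr rfl fun b _ => Finset.sum_congr rfl fun a _ => ?_
    rw [Finset.sum_eq_single a]
    · rw [Matrix.one_apply_eq, mul_one]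
    · intro a' _ ha'
      rw [Matrix.one_apply_ne ha'.symm, mul_zero, zero_mul]
    · intro h; exact absurd (Finset.mem_univ _) h
  rw [e1, e2, e3, e4]
  ring

/-- The dual basis element: `tr (NN a * (P ⊗ 1)) = P a a`. -/
noncomputable def NN (a : Mode K) : Matrix (Mode K × Mode K) (Mode K × Mode K) ℂ :=
  ((2 : ℂ) ^ K - 2)⁻¹ • wd (Matrix.single a a 1 - (2 * (2 : ℂ) ^ K - 2)⁻¹ • 1)

theorem pow_facts (hK : 2 ≤ K) : ((2 : ℂ) ^ K - 2) ≠ 0 ∧ (2 * (2 : ℂ) ^ K - 2) ≠ 0 := by
  have h : (4 : ℝ) ≤ (2 : ℝ) ^ K := by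
    calc (4 : ℝ) = 2 ^ 2 := by norm_num
      _ ≤ 2 ^ K := pow_le_pow_right₀ (by norm_num) hK
  constructor
  · intro h0
    have h1 : (((2 : ℝ) ^ K - 2 : ℝ) : ℂ) = 0 := by push_cast; exact h0
    have h2 : (2 : ℝ) ^ K - 2 = 0 := by exact_mod_cast h1
    linarith
  · intro h0
    have h1 : ((2 * (2 : ℝ) ^ K - 2 : ℝ) : ℂ) = 0 := by push_cast; exact h0
    have h2 : 2 * (2 : ℝ) ^ K - 2 = 0 := by exact_mod_cast h1
    linarith

theorem trace_NN (hK : 2 ≤ K) (a : Mode K) (P : Matrix (Mode K) (Mode K) ℂ) :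
    (NN a * (P ⊗ₖ (1 : Matrix (Mode K) (Mode K) ℂ))).trace = P a a := by
  obtain ⟨h1, h2⟩ := pow_facts hK
  have h3 : (Matrix.single a a (1 : ℂ) * P).trace = P a a := by
    rw [Matrix.trace, Finset.sum_eq_single a]
    · simp [Matrix.single_mul_apply_same]
    · intro b _ hb
      rw [Matrix.diag_apply, Matrix.single_mul_apply_of_ne (h := hb)]
    · intro h; exact absurd (Finset.mem_univ _) h
  have h4 : (Matrix.single a a (1 : ℂ)).trace = 1 := Matrix.trace_single_eq_same a 1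
  have h5 : (1 : Matrix (Mode K) (Mode K) ℂ).trace = (2 : ℂ) ^ K := by
    rw [Matrix.trace_one]; simp
  unfold NN
  rw [Matrix.smul_mul, trace_smul, trace_wd, Matrix.sub_mul, trace_sub, trace_sub, h3, h4,
    Matrix.smul_mul, trace_smul, trace_smul, Matrix.one_mul, h5]
  simp only [smul_eq_mul]
  have hq : ((2 : ℂ) ^ K - 2) * ((2 : ℂ) ^ K - 2)⁻¹ = 1 := mul_inv_cancel₀ h1
  have hs : (2 * (2 : ℂ) ^ K - 2) * (2 * (2 : ℂ) ^ K - 2)⁻¹ = 1 := mul_inv_cancel₀ h2
  linear_combination P a a * hq - ((2 : ℂ) ^ K - 2)⁻¹ * P.trace * hs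

/-- The matrix with test functional `∑ x a c |w_a|² |w_c|²`. -/
noncomputable def Y0 (x : Mode K → Mode K → ℂ) : Matrix (Idx K) (Idx K) ℂ :=
  ∑ a, ∑ c, x a c • (NN a ⊗ₖ NN c)

theorem NN_left (a : Mode K) (p q : Mode K × Mode K) : NN a p.swap q = - NN a p q := by
  unfold NN
  rw [Matrix.smul_apply, Matrix.smul_apply, wd_left, smul_neg]

theorem NN_right (a : Mode K) (p q : Mode K × Mode K) : NN a p q.swap = - NN a p q := by
  unfold NN
  rw [Matrix.smul_apply, Matrix.smul_apply, wd_right, smul_neg]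

theorem anti_Y0 (x : Mode K → Mode K → ℂ) : Anti (Y0 x) := by
  unfold Y0
  refine anti_sum _ _ fun a _ => anti_sum _ _ fun c _ => anti_smul _ ?_
  rintro p q ⟨p', q'⟩
  simp only [kronecker_apply, NN_left, NN_right]
  refine ⟨?_, ?_, ?_, ?_⟩ <;> ring

theorem FF_sum {ι : Type*} (s : Finset ι) (Y : ι → Matrix (Idx K) (Idx K) ℂ) (w : Mode K → ℂ) :
    FF (∑ i ∈ s, Y i) w = ∑ i ∈ s, FF (Y i) w := by
  unfold FF
  rw [Finset.sum_mul, trace_sum]

theorem FF_Y0 (hK : 2 ≤ K) (x : Mode K → Mode K → ℂ) (w : Mode K → ℂ) :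
    FF (Y0 x) w = ∑ a, ∑ c, x a c * ((PP w a : ℂ) * (PP w c : ℂ)) := by
  unfold Y0
  rw [FF_sum]
  refine Finset.sum_congr rfl fun a _ => ?_
  rw [FF_sum]
  refine Finset.sum_congr rfl fun c _ => ?_
  rw [FF_smul]
  congr 1
  unfold FF GG
  rw [← mul_kronecker_mul, trace_kronecker, trace_NN hK, trace_NN hK]
  have : ∀ b : Mode K, pj w b b = (PP w b : ℂ) := by
    intro b
    unfold pj PP
    rw [vecMulVec_apply, Pi.star_apply, ← Complex.mul_conj]
    rfl
  rw [this, this]

/-- The coefficients of the first stage function. -/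
noncomputable def x0 (c r ν : ℝ) (a b : Mode K) : ℂ :=
  ((c + ∑ j : Fin K, gg r ν 0 j * (if ∀ i ∈ SS K 0 j, a i = b i then 1 else 0) : ℝ) : ℂ)

theorem FF_x0 (hK : 2 ≤ K) (c r ν : ℝ) (w : Mode K → ℂ) :
    FF (Y0 (x0 c r ν)) w = ((ff c r ν 0 w : ℝ) : ℂ) := by
  rw [FF_Y0 hK]
  have h1 : ff c r ν 0 w = ∑ a, ∑ b, (c + ∑ j : Fin K, gg r ν 0 j *
      (if ∀ i ∈ SS K 0 j, a i = b i then 1 else 0)) * (PP w a * PP w b) := by
    have h8 : kh r ν 0 w = 0 := rfl
    unfold ff
    rw [h8, Finset.range_zero, Finset.sum_empty, mul_zero, add_zero, add_zero]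
    simp_rw [add_mul, Finset.sum_add_distrib, Finset.sum_mul]
    congr 1
    · unfold QQ
      simp [Finset.mul_sum]
    · have e1 : ∀ a : Mode K, ∑ b : Mode K, ∑ j : Fin K, gg r ν 0 j *
          (if ∀ i ∈ SS K 0 j, a i = b i then 1 else 0) * (PP w a * PP w b)
          = ∑ j : Fin K, ∑ b : Mode K, gg r ν 0 j *
          (if ∀ i ∈ SS K 0 j, a i = b i then 1 else 0) * (PP w a * PP w b) :=
        fun a => Finset.sum_comm
      simp_rw [e1]
      rw [Finset.sum_comm]
      refine Finset.sum_congr rfl fun j _ => ?_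
      unfold QQ
      rw [Finset.mul_sum]
      refine Finset.sum_congr rfl fun a _ => ?_
      rw [Finset.mul_sum]
      refine Finset.sum_congr rfl fun b _ => ?_
      split_ifs <;> ring
  rw [h1]
  unfold x0
  push_cast
  rfl

/-- The basis vector. -/
noncomputable def e0 (K : ℕ) : Mode K → ℂ := Pi.single 0 1

theorem PP_e0 (a : Mode K) : PP (e0 K) a = if a = 0 then 1 else 0 := by
  unfold PP e0
  by_cases h : a = 0
  · rw [h]; simp
  · rw [Pi.single_eq_of_ne h]; simp [h]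

theorem QQ_e0 (A : Finset (Fin K)) : QQ A (e0 K) = 1 := by
  unfold QQ
  rw [Finset.sum_eq_single 0, Finset.sum_eq_single 0]
  · simp [PP_e0]
  · intro b _ hb; simp [PP_e0, hb]
  · intro h; exact absurd (Finset.mem_univ _) h
  · intro a _ ha
    apply Finset.sum_eq_zero
    intro b _
    simp [PP_e0, ha]
  · intro h; exact absurd (Finset.mem_univ _) h

theorem HH_e0 (ℓ : Fin K) : HH ℓ (e0 K) = 0 := by
  unfold HH
  apply Finset.sum_eq_zero
  intro a _
  have h : e0 K a = 0 ∨ e0 K (flip ℓ a) = 0 := by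
    by_cases h : a = 0
    · right
      unfold e0
      apply Pi.single_eq_of_ne
      intro h2
      have := congrFun h2 ℓ
      rw [flip_apply_same, h] at this
      simp at this
    · left; exact Pi.single_eq_of_ne h _
  rcases h with h | h <;> simp [h]

theorem kh_e0 (r ν : ℝ) (m : ℕ) : kh r ν m (e0 K) = 0 := by
  cases m with
  | zero => rfl
  | succ m =>
    simp only [kh]
    split_ifs
    · rw [HH_e0, mul_zero]
    · rfl

theorem ff_e0 (c r ν : ℝ) (hr : r ≠ 1) (hν : r ^ K = ν) (h2 : ν - 1 = 2 * ν * (r - 1)) :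
    ff c r ν 0 (e0 K) = c + 2 * ν := by
  have h8 : kh r ν 0 (e0 K) = 0 := rfl
  unfold ff
  rw [h8, Finset.range_zero, Finset.sum_empty]
  simp_rw [QQ_e0]
  have := weights K r ν hr hν h2 0 (Nat.zero_le _)
  rw [pow_zero, mul_one] at this
  have h3 : ∑ j : Fin K, gg r ν 0 j * 1 = 2 * ν := by
    rw [← this]
    refine Finset.sum_congr rfl fun j _ => ?_
    unfold gg
    rw [pow_zero, one_mul, mul_one]
  rw [h3]
  ring

/-- The eigenvalue. -/
theorem main (K : ℕ) (hK : 5 ≤ K) :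
    ∃ lam : ℝ, 1 / 2 * (3 / 4 : ℝ) ^ K ≤ lam ∧ lam < 1 ∧
      ∃ Y : Matrix (Idx K) (Idx K) ℂ, Y ≠ 0 ∧ Anti Y ∧ Phi K Y = (lam : ℂ) • Y := by
  obtain ⟨μ, h0, h1, h2⟩ := exists_mu K hK
  have hK5 : (5 : ℝ) ≤ K := by exact_mod_cast hK
  have hμ1 : μ < 1 := by
    have : (3 : ℝ) / (2 * K) ≤ 3 / 10 := by
      apply div_le_div_of_nonneg_left (by norm_num) (by norm_num); linarith
    linarith
  set r : ℝ := (3 - μ) / 2 with hr
  set ν : ℝ := r ^ K with hν
  set c : ℝ := -2 / (1 + μ) with hc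
  have hν2 : μ * ν = 1 := h2
  have hr1 : r ≠ 1 := by
    intro h; rw [hr] at h; linarith
  have hrel : ν - 1 = 2 * ν * (r - 1) := by
    rw [hr]; linear_combination hν2
  have hc2 : c * (2 - r) = -1 := by
    rw [hc, hr]
    have : (1 + μ) ≠ 0 := by positivity
    field_simp
    ring
  have hK2 : 2 ≤ K := by omega
  set lam : ℝ := (r / 2) ^ K with hlam
  have hlam1 : 1 / 2 * (3 / 4 : ℝ) ^ K ≤ lam := by
    have := lam_lower K hK μ h0 h1
    rw [hlam, hr]
    have e : (3 - μ) / 2 / 2 = (3 - μ) / 4 := by ring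
    rw [e]; exact this
  have hlampos : 0 < lam := lt_of_lt_of_le (by positivity) hlam1
  have hlam2 : lam < 1 := by
    rw [hlam, hr]
    apply pow_lt_one₀
    · linarith
    · linarith
    · omega
  refine ⟨lam, hlam1, hlam2, ?_⟩
  set v := Phi K (Y0 (x0 (K := K) c r ν)) with hv
  have hFv : ∀ w, FF v w = ((lam * ff c r ν 0 w + kh r ν K w : ℝ) : ℂ) := by
    intro w
    rw [hv, FF_Phi]
    simp_rw [FF_x0 hK2]
    rw [integral_complex_ofReal, avg_ff c r ν hr1 rfl hrel hc2]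
  apply exists_eigenvector (lam : ℂ) v (anti_Phi _ (anti_Y0 _))
  · refine ⟨e0 K, ?_⟩
    rw [hFv, kh_e0, ff_e0 c r ν hr1 rfl hrel, add_zero]
    have h3 : 0 < c + 2 * ν := by
      have h4 : 1 ≤ ν := by
        have h5 : 0 < ν := by
          by_contra h6
          have := mul_nonpos_of_nonneg_of_nonpos h0.le (not_lt.1 h6)
          linarith
        nlinarith
      have h7 : -2 < c := by
        rw [hc, neg_div, neg_lt_neg_iff, div_lt_iff₀ (by linarith)]
        linarith
      linarith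
    have h8 : lam * (c + 2 * ν) ≠ 0 := (mul_pos hlampos h3).ne'
    exact_mod_cast h8
  · intro w
    rw [FF_Phi]
    simp_rw [hFv]
    rw [integral_complex_ofReal, ← Complex.ofReal_mul, Complex.ofReal_inj]
    have i1 : Integrable (fun ω => lam * ff c r ν 0 ((butterfly ω)ᴴ *ᵥ w)) (angles K) := by
      apply (carried_angles K).integrable
      exact continuous_const.mul ((continuous_ff c r ν 0).comp
        (continuous_butterfly.matrix_conjTranspose.matrix_mulVec continuous_const))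
    have i2 : Integrable (fun ω => kh r ν K ((butterfly ω)ᴴ *ᵥ w)) (angles K) := by
      apply (carried_angles K).integrable
      exact (continuous_kh r ν K).comp
        (continuous_butterfly.matrix_conjTranspose.matrix_mulVec continuous_const)
    rw [integral_add i1 i2, integral_const_mul, avg_ff c r ν hr1 rfl hrel hc2,
      avg_kh r ν hK2, add_zero]

/-- The disproof of Q1. -/
theorem not_Q1 : ¬ Q1 := by
  rintro ⟨C, hC, K₀, h⟩
  have hlim : Filter.Tendsto (fun n : ℕ => (3 / 2 : ℝ) ^ n) Filter.atTop Filter.atTop :=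
    tendsto_pow_atTop_atTop_of_one_lt (by norm_num)
  obtain ⟨N, hN⟩ := (Filter.tendsto_atTop.1 hlim (2 * C + 1)).exists_forall_of_atTop
  set K := max (max N K₀) 5 with hKdef
  have hK5 : 5 ≤ K := le_max_right _ _
  have hK0 : K₀ ≤ K := le_trans (le_max_right _ _) (le_max_left _ _)
  have hKN : N ≤ K := le_trans (le_max_left _ _) (le_max_left _ _)
  obtain ⟨lam, h1, h2, Y, hY0, hYa, hYe⟩ := main K hK5
  have h3 := (h K hK0).2 (lam : ℂ) (by
    intro h4
    have : lam = 1 := by exact_mod_cast h4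
    linarith) ⟨Y, hY0, hYa, hYe⟩
  have h5 := hN K hKN
  have h6 : (3 / 4 : ℝ) ^ K * 2 ^ K = (3 / 2 : ℝ) ^ K := by
    rw [← mul_pow]; norm_num
  have hpos : (0 : ℝ) < 2 ^ K := by positivity
  have hl0 : 0 ≤ lam := le_trans (by positivity) h1
  rw [Complex.norm_real, Real.norm_eq_abs, abs_of_nonneg hl0, le_div_iff₀ hpos] at h3
  have h7 : 1 / 2 * (3 / 4 : ℝ) ^ K * 2 ^ K ≤ C :=
    le_trans (mul_le_mul_of_nonneg_right h1 hpos.le) h3
  rw [mul_assoc, h6] at h7
  linarith

end Pool.Agent.X83.BF
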